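import Pool.Agent.SHF.Defs
import Pool.Agent.Helper18.Dub.QH

/-!
# Equivariant correlators: finiteness, unit, non-equivariant limit

Finiteness of the sums over curve classes in the equivariant theory of a Fano manifold, the value of
equivariant correlators and of the inverse equivariant pairing at `λ = 0`, the unit axiom for the
generating functions, and their partial derivatives.
-/

open scoped BigOperators
open Finset MvPowerSeries

namespace Pool.Agent.SHF

open Pool.Agent.Helper18.Dub

namespace EquivGW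

variable {ι : Type} [Fintype ι] [DecidableEq ι] {X : FanoGW ι} (T : EquivGW X)

theorem finite_support (s : Multiset ι) : (Function.support fun β => T.invT β s).Finite := by
  have hfin : (⋃ m ∈ Finset.range ((s.map X.deg).sum + 4), {β | X.c1 β = m}).Finite :=
    Set.Finite.biUnion (Finset.finite_toSet _) fun m _ => X.c1_finite m
  refine hfin.subset ?_
  intro β hβ
  rw [Function.mem_support] at hβ
  obtain ⟨n, hn⟩ : ∃ n, (T.invT β s).coeff n ≠ 0 := by
    by_contra h
    apply hβ
    ext n
    rw [Polynomial.coeff_zero]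
    by_contra hne
    exact h ⟨n, hne⟩
  have hd := T.dimension β s n hn
  simp only [Set.mem_iUnion, Finset.mem_range, exists_prop]
  refine ⟨X.c1 β, ?_, rfl⟩
  omega

theorem corrT_eval (s : Multiset ι) : (T.corrT s).eval 0 = X.corr s := by
  have h1 : (Polynomial.evalRingHom (0 : ℂ)).toAddMonoidHom (∑ᶠ β, T.invT β s) =
      ∑ᶠ β, (Polynomial.evalRingHom (0 : ℂ)).toAddMonoidHom (T.invT β s) :=
    AddMonoidHom.map_finsum _ (T.finite_support s)
  calc (T.corrT s).eval 0
      = (Polynomial.evalRingHom (0 : ℂ)).toAddMonoidHom (∑ᶠ β, T.invT β s) := rfl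
    _ = ∑ᶠ β, (Polynomial.evalRingHom (0 : ℂ)).toAddMonoidHom (T.invT β s) := h1
    _ = ∑ᶠ β, X.inv β s := finsum_congr fun β => T.inv_zero β s
    _ = X.corr s := rfl

private theorem coeff_serT (s : Multiset ι) (m : ι →₀ ℕ) : coeff m (T.serT s) =
    Polynomial.C (∏ i, ((m i).factorial : ℂ))⁻¹ * T.corrT (s + Finsupp.toMultiset m) := rfl

theorem map_serT (s : Multiset ι) :
    MvPowerSeries.map (Polynomial.evalRingHom 0) (T.serT s) = X.ser s := by
  ext m
  rw [coeff_map, coeff_serT, FanoGW.coeff_ser, Polynomial.coe_evalRingHom, Polynomial.eval_mul,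
    Polynomial.eval_C, corrT_eval, div_eq_mul_inv, mul_comm]

private theorem pair_mul_inv : T.pairT * T.pairT⁻¹ = 1 := Matrix.mul_nonsing_inv _ T.pair_nondeg

private theorem pair_isSymm : T.pairT.transpose = T.pairT :=
  Matrix.ext fun i j => T.pair_symm j i

theorem map_pairInv (i j : ι) : (T.pairT⁻¹ i j).eval 0 = X.pair⁻¹ i j := by
  have h1 : (Polynomial.evalRingHom (0 : ℂ)).mapMatrix T.pairT = X.pair := by
    ext a b
    exact T.pair_zero a b
  have h2 := congrArg (Polynomial.evalRingHom (0 : ℂ)).mapMatrix T.pair_mul_inv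
  rw [map_mul, map_one, h1] at h2
  have h3 := Matrix.inv_eq_right_inv h2
  rw [h3]
  rfl

theorem pairInv_symm (i j : ι) : T.pairT⁻¹ i j = T.pairT⁻¹ j i := by
  have h : (T.pairT⁻¹).transpose = T.pairT⁻¹ := by
    rw [Matrix.transpose_nonsing_inv, T.pair_isSymm]
  have := congrFun (congrFun h j) i
  rw [Matrix.transpose_apply] at this
  exact this

private theorem corrT_unit (i j : ι) : T.corrT {X.one, i, j} = T.pairT i j := by
  rw [EquivData.corrT, finsum_eq_single _ X.zero]
  · exact T.unit_zero i j
  · intro β hβ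
    exact T.unit_ne β i j hβ

private theorem corrT_unit_many (s : Multiset ι) (hs : 3 ≤ Multiset.card s) :
    T.corrT (X.one ::ₘ s) = 0 := by
  rw [EquivData.corrT]
  rw [finsum_congr (fun β => T.unit_many β s hs), finsum_zero]

theorem serT_unit (b l : ι) : T.serT {X.one, b, l} = C (T.pairT b l) := by
  ext m : 1
  rw [coeff_serT, coeff_C]
  by_cases hm : m = 0
  · subst hm
    rw [if_pos rfl, map_zero, add_zero, T.corrT_unit]
    simp
  · rw [if_neg hm]
    have h1 : ({X.one, b, l} : Multiset ι) + Finsupp.toMultiset m =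
        X.one ::ₘ (({b, l} : Multiset ι) + Finsupp.toMultiset m) := by
      rw [← Multiset.cons_add]; rfl
    rw [h1, T.corrT_unit_many, mul_zero]
    rw [Multiset.card_add]
    have h2 : Multiset.card (Finsupp.toMultiset m) ≠ 0 := by
      intro h0
      rw [Multiset.card_eq_zero] at h0
      apply hm
      have := congrArg Multiset.toFinsupp h0
      rwa [Finsupp.toMultiset_toFinsupp, map_zero] at this
    have h3 : Multiset.card ({b, l} : Multiset ι) = 2 := rfl
    omega

theorem pderiv_serT (a : ι) (s : Multiset ι) :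
    pderiv (Polynomial ℂ) a (T.serT s) = T.serT (a ::ₘ s) := by
  ext m : 1
  rw [coeff_pderiv, coeff_serT, coeff_serT, FanoGW.prod_factorial_add_single]
  have h1 : s + Finsupp.toMultiset (m + Finsupp.single a 1) =
      (a ::ₘ s) + Finsupp.toMultiset m := by
    rw [map_add, Finsupp.toMultiset_single, one_smul, Multiset.cons_add, ← Multiset.singleton_add]
    abel
  rw [h1]
  have h2 : ((m a : ℂ) + 1) ≠ 0 := Nat.cast_add_one_ne_zero _
  have h4 : ((m a : Polynomial ℂ) + 1) = Polynomial.C ((m a : ℂ) + 1) := by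
    rw [map_add, map_one, map_natCast]
  rw [h4]
  generalize T.corrT ((a ::ₘ s) + Finsupp.toMultiset m) = c
  generalize (∏ j, ((m j).factorial : ℂ)) = P
  generalize ((m a : ℂ) + 1) = q at h2
  have h5 : Polynomial.C (q * P)⁻¹ * c * Polynomial.C q =
      Polynomial.C ((q * P)⁻¹ * q) * c := by
    rw [map_mul]
    ring
  rw [h5]
  congr 2
  rw [mul_inv, mul_comm q⁻¹ P⁻¹, mul_assoc, inv_mul_cancel₀ h2, mul_one]

end EquivGW

end Pool.Agent.SHF
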