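import Pool.Agent.SHF.Emb

/-!
# The coefficients of the shift operator

`c0` and `c1` are the coefficients of `z^0` and `z^1` (coefficientwise in `t`) of a power series
with coefficients in `ℂ[λ][z]`. The intertwining relation of the shift operator gives, in
`z`-degree `0`, that the constant term commutes with the equivariant quantum multiplications, and
in `z`-degree `1` a first order equation.
-/

open scoped BigOperators
open Finset MvPowerSeries

namespace Pool.Agent.SHF

open Pool.Agent.Helper18.Dub

section coef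

variable {ι : Type}

/-- the coefficient of `z^0` -/
noncomputable def c0 :
    MvPowerSeries ι (Polynomial (Polynomial ℂ)) →+* MvPowerSeries ι (Polynomial ℂ) :=
  MvPowerSeries.map Polynomial.constantCoeff

/-- the coefficient of `z^1` -/
noncomputable def c1 (f : MvPowerSeries ι (Polynomial (Polynomial ℂ))) :
    MvPowerSeries ι (Polynomial ℂ) := fun m => (f m).coeff 1

theorem coeff_c1 (f : MvPowerSeries ι (Polynomial (Polynomial ℂ))) (m : ι →₀ ℕ) :
    coeff m (c1 f) = (coeff m f).coeff 1 := rfl

private theorem coef_coeff_c0 (f : MvPowerSeries ι (Polynomial (Polynomial ℂ))) (m : ι →₀ ℕ) :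
    coeff m (c0 f) = (coeff m f).coeff 0 := by
  unfold c0
  rw [MvPowerSeries.coeff_map]
  rfl

theorem c1_add (f g : MvPowerSeries ι (Polynomial (Polynomial ℂ))) :
    c1 (f + g) = c1 f + c1 g := by
  ext m : 1
  rw [map_add, coeff_c1, coeff_c1, coeff_c1, map_add, Polynomial.coeff_add]

theorem c1_mul (f g : MvPowerSeries ι (Polynomial (Polynomial ℂ))) :
    c1 (f * g) = c0 f * c1 g + c1 f * c0 g := by
  classical
  ext m : 1
  rw [map_add, coeff_c1, coeff_mul, coeff_mul, coeff_mul, Polynomial.finsetSum_coeff,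
    ← Finset.sum_add_distrib]
  refine Finset.sum_congr rfl fun x _ => ?_
  rw [Polynomial.mul_coeff_one, coeff_c1, coeff_c1, coef_coeff_c0, coef_coeff_c0]

theorem c0_zmul (f : MvPowerSeries ι (Polynomial (Polynomial ℂ))) :
    c0 (C (Polynomial.X : Polynomial (Polynomial ℂ)) * f) = 0 := by
  ext m : 1
  rw [coef_coeff_c0, coeff_C_mul, map_zero, Polynomial.mul_coeff_zero, Polynomial.coeff_X_zero,
    zero_mul]

theorem c1_zmul (f : MvPowerSeries ι (Polynomial (Polynomial ℂ))) :
    c1 (C (Polynomial.X : Polynomial (Polynomial ℂ)) * f) = c0 f := by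
  ext m : 1
  rw [coeff_c1, coeff_C_mul, coef_coeff_c0, Polynomial.coeff_X_mul]

theorem c0_map_C (f : MvPowerSeries ι (Polynomial ℂ)) :
    c0 (MvPowerSeries.map Polynomial.C f) = f := by
  ext m : 1
  rw [coef_coeff_c0, MvPowerSeries.coeff_map, Polynomial.coeff_C_zero]

theorem c1_map_C (f : MvPowerSeries ι (Polynomial ℂ)) :
    c1 (MvPowerSeries.map Polynomial.C f) = 0 := by
  ext m : 1
  rw [coeff_c1, MvPowerSeries.coeff_map, Polynomial.coeff_C_of_ne_zero one_ne_zero, map_zero]

private theorem coef_shift_zero (k : ℤ) (p : Polynomial ℂ) : (shiftHom k p).coeff 0 = p := by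
  have h : (Polynomial.constantCoeff (R := Polynomial ℂ)).comp (shiftHom k) =
      RingHom.id (Polynomial ℂ) := by
    refine Polynomial.ringHom_ext (fun a => ?_) ?_
    · simp [shiftHom]
    · simp [shiftHom]
  exact RingHom.congr_fun h p

private theorem coef_shift_X (k : ℤ) :
    (shiftHom k Polynomial.X).coeff 1 = -(k : Polynomial ℂ) := by
  unfold shiftHom
  rw [Polynomial.coe_eval₂RingHom, Polynomial.eval₂_X, Polynomial.coeff_sub,
    Polynomial.coeff_mul_X, Polynomial.coeff_C_of_ne_zero one_ne_zero, zero_sub]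
  have h : ((k : Polynomial (Polynomial ℂ))).coeff 0 = (k : Polynomial ℂ) := by
    rw [← Polynomial.constantCoeff_apply, map_intCast]
  rw [h]

private theorem coef_shift_one (k : ℤ) (p : Polynomial ℂ) :
    (shiftHom k p).coeff 1 = -((k : Polynomial ℂ) * Polynomial.derivative p) := by
  induction p using Polynomial.induction_on with
  | C a =>
    rw [Polynomial.derivative_C, mul_zero, neg_zero]
    unfold shiftHom
    rw [Polynomial.coe_eval₂RingHom, Polynomial.eval₂_C, RingHom.comp_apply,
      Polynomial.coeff_C_of_ne_zero one_ne_zero]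
  | add p q hp hq =>
    rw [map_add, Polynomial.coeff_add, hp, hq, map_add]
    ring
  | monomial n a h =>
    have hd := Polynomial.derivative_mul (f := Polynomial.C a * Polynomial.X ^ n)
      (g := (Polynomial.X : Polynomial ℂ))
    rw [pow_succ, ← mul_assoc, map_mul, Polynomial.mul_coeff_one, h, coef_shift_X,
      coef_shift_zero, coef_shift_zero, hd, Polynomial.derivative_X]
    ring

theorem c0_map_shift (k : ℤ) (f : MvPowerSeries ι (Polynomial ℂ)) :
    c0 (MvPowerSeries.map (shiftHom k) f) = f := by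
  ext m : 1
  rw [coef_coeff_c0, MvPowerSeries.coeff_map, coef_shift_zero]

theorem c1_map_shift (k : ℤ) (f : MvPowerSeries ι (Polynomial ℂ)) :
    c1 (MvPowerSeries.map (shiftHom k) f) = -((k : MvPowerSeries ι (Polynomial ℂ)) * mapDeriv f) := by
  ext m : 1
  have h : (k : MvPowerSeries ι (Polynomial ℂ)) = C (k : Polynomial ℂ) := 
    (map_intCast (C : Polynomial ℂ →+* MvPowerSeries ι (Polynomial ℂ)) k).symm
  rw [coeff_c1, MvPowerSeries.coeff_map, coef_shift_one, map_neg, h, coeff_C_mul, coeff_mapDeriv]

theorem c0_pderiv (a : ι) (f : MvPowerSeries ι (Polynomial (Polynomial ℂ))) :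
    c0 (pderiv (Polynomial (Polynomial ℂ)) a f) = pderiv (Polynomial ℂ) a (c0 f) := by
  ext m : 1
  rw [coef_coeff_c0, coeff_pderiv, coeff_pderiv, coef_coeff_c0, Polynomial.mul_coeff_zero]
  congr 1
  rw [← Polynomial.constantCoeff_apply, map_add, map_natCast, map_one]

end coef

namespace TorusGW

variable {ι : Type} [Fintype ι] [DecidableEq ι] {X : FanoGW ι} (T : TorusGW X)

/-- the coefficient of `z^0` of the shift operator -/
noncomputable def S0 : Matrix ι ι (MvPowerSeries ι (Polynomial ℂ)) := T.S.map c0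

/-- the coefficient of `z^1` of the shift operator -/
noncomputable def S1 : Matrix ι ι (MvPowerSeries ι (Polynomial ℂ)) := T.S.map c1

private theorem coef_map_mul {M N : Matrix ι ι (MvPowerSeries ι (Polynomial (Polynomial ℂ)))} :
    (M * N).map c1 = M.map c0 * N.map c1 + M.map c1 * N.map c0 := by
  ext i j : 1
  rw [Matrix.map_apply, Matrix.mul_apply, Matrix.add_apply, Matrix.mul_apply, Matrix.mul_apply]
  have h : ∀ s : Finset ι, c1 (∑ l ∈ s, M i l * N l j) =
      ∑ l ∈ s, M.map c0 i l * N.map c1 l j + ∑ l ∈ s, M.map c1 i l * N.map c0 l j := by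
    intro s
    classical
    induction s using Finset.induction_on with
    | empty =>
      simp only [Finset.sum_empty, add_zero]
      ext m : 1
      rw [coeff_c1]
      simp
    | insert a s ha ih =>
      rw [Finset.sum_insert ha, Finset.sum_insert ha, Finset.sum_insert ha, c1_add, ih, c1_mul]
      simp only [Matrix.map_apply]
      ring
  exact h Finset.univ

theorem isUnit_S0 : IsUnit T.S0.det := by
  have h : T.S0.det = c0 T.S.det := by
    rw [RingHom.map_det]
    rfl
  rw [h]
  exact T.isUnit_S.map c0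

theorem comm (a : ι) : T.mulMatT a * T.S0 = T.S0 * T.mulMatT a := by
  have h := congrArg (fun M : Matrix ι ι (MvPowerSeries ι (Polynomial (Polynomial ℂ))) =>
    M.map c0) (T.intertwine a)
  have h1 : ((T.mulMatT a).map (MvPowerSeries.map Polynomial.C)).map c0 = T.mulMatT a := by
    ext i j : 1
    rw [Matrix.map_apply, Matrix.map_apply, c0_map_C]
  have h2 : ((T.mulMatT a).map (MvPowerSeries.map (shiftHom T.k))).map c0 = T.mulMatT a := by
    ext i j : 1
    rw [Matrix.map_apply, Matrix.map_apply, c0_map_shift]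
  have h3 : ((C (Polynomial.X : Polynomial (Polynomial ℂ)) :
      MvPowerSeries ι (Polynomial (Polynomial ℂ))) •
        T.S.map (pderiv (Polynomial (Polynomial ℂ)) a)).map c0 = 0 := by
    ext i j : 1
    rw [Matrix.map_apply, Matrix.smul_apply, smul_eq_mul, c0_zmul, Matrix.zero_apply]
  change (_ + _ : Matrix ι ι (MvPowerSeries ι (Polynomial (Polynomial ℂ)))).map c0 =
    (_ * _ : Matrix ι ι (MvPowerSeries ι (Polynomial (Polynomial ℂ)))).map c0 at h
  rw [Matrix.map_add _ (map_add c0), h3, zero_add, Matrix.map_mul, Matrix.map_mul, h1, h2] at h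
  exact h

theorem first (a : ι) : T.S0.map (pderiv (Polynomial ℂ) a) + T.mulMatT a * T.S1 +
    (T.k : MvPowerSeries ι (Polynomial ℂ)) • (T.S0 * (T.mulMatT a).map mapDeriv) =
      T.S1 * T.mulMatT a := by
  have h := congrArg (fun M : Matrix ι ι (MvPowerSeries ι (Polynomial (Polynomial ℂ))) =>
    M.map c1) (T.intertwine a)
  have h1 : ((T.mulMatT a).map (MvPowerSeries.map Polynomial.C)).map c0 = T.mulMatT a := by
    ext i j : 1
    rw [Matrix.map_apply, Matrix.map_apply, c0_map_C]
  have h2 : ((T.mulMatT a).map (MvPowerSeries.map (shiftHom T.k))).map c0 = T.mulMatT a := by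
    ext i j : 1
    rw [Matrix.map_apply, Matrix.map_apply, c0_map_shift]
  have h1' : ((T.mulMatT a).map (MvPowerSeries.map Polynomial.C)).map c1 = 0 := by
    ext i j : 1
    rw [Matrix.map_apply, Matrix.map_apply, c1_map_C, Matrix.zero_apply]
  have h2' : ((T.mulMatT a).map (MvPowerSeries.map (shiftHom T.k))).map c1 =
      -((T.k : MvPowerSeries ι (Polynomial ℂ)) • (T.mulMatT a).map mapDeriv) := by
    ext i j : 1
    rw [Matrix.map_apply, Matrix.map_apply, c1_map_shift, Matrix.neg_apply, Matrix.smul_apply,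
      Matrix.map_apply, smul_eq_mul]
  have h3 : ((C (Polynomial.X : Polynomial (Polynomial ℂ)) :
      MvPowerSeries ι (Polynomial (Polynomial ℂ))) •
        T.S.map (pderiv (Polynomial (Polynomial ℂ)) a)).map c1 =
        T.S0.map (pderiv (Polynomial ℂ) a) := by
    ext i j : 1
    rw [Matrix.map_apply, Matrix.smul_apply, smul_eq_mul, c1_zmul, Matrix.map_apply, c0_pderiv]
    rfl
  change (_ + _ : Matrix ι ι (MvPowerSeries ι (Polynomial (Polynomial ℂ)))).map c1 =
    (_ * _ : Matrix ι ι (MvPowerSeries ι (Polynomial (Polynomial ℂ)))).map c1 at h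
  rw [Matrix.map_add _ c1_add, h3, coef_map_mul, coef_map_mul, h1, h2, h1', h2', zero_mul,
    add_zero] at h
  change T.S0.map (pderiv (Polynomial ℂ) a) + T.mulMatT a * T.S1 = T.S0 *
    (-((T.k : MvPowerSeries ι (Polynomial ℂ)) • (T.mulMatT a).map mapDeriv)) +
      T.S1 * T.mulMatT a at h
  rw [h, Matrix.mul_neg, Matrix.mul_smul]
  abel

end TorusGW

end Pool.Agent.SHF
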