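import Pool.Agent.Helper1.DubProd.Srk

/-!
# Characters and the rank of the trace form
-/

open scoped BigOperators
open Finset

namespace Pool.Agent.SHF

open Pool.Agent.Helper18.Dub Pool.Agent.Helper1.DubProd

section

variable {R : Type} [CommRing R] [IsDomain R] [CharZero R] {ι : Type} [Fintype ι] [DecidableEq ι]

/-- `r` are the values of a character (ring homomorphism to `R` over `R`) on the basis -/
structure IsChar (A : AlgStr R ι) (r : ι → R) : Prop where
  one : r A.one = 1
  mul : ∀ a b, r a * r b = ∑ k, A.m a b k * r k

/-- the character -/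
def IsChar.hom {A : AlgStr R ι} {r : ι → R} (h : IsChar A r) : A.Carrier →* R where
  toFun x := ∑ a, x a * r a
  map_one' := by
    rw [Finset.sum_eq_single A.one]
    · rw [AlgStr.one_apply, if_pos rfl, h.one, mul_one]
    · intro b _ hb
      rw [AlgStr.one_apply, if_neg (Ne.symm hb), zero_mul]
    · intro h'
      exact absurd (Finset.mem_univ _) h'
  map_mul' x y := by
    have h1 : ∀ k, (x * y) k * r k = ∑ a, ∑ b, x a * y b * (A.m a b k * r k) := by
      intro k
      rw [AlgStr.mul_apply, Finset.sum_mul]
      refine Finset.sum_congr rfl fun a _ => ?_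
      rw [Finset.sum_mul]
      refine Finset.sum_congr rfl fun b _ => ?_
      ring
    rw [Finset.sum_congr rfl fun k _ => h1 k, Finset.sum_mul_sum, Finset.sum_comm]
    refine Finset.sum_congr rfl fun a _ => ?_
    rw [Finset.sum_comm]
    refine Finset.sum_congr rfl fun b _ => ?_
    rw [← Finset.mul_sum, ← h.mul]
    ring

theorem IsChar.hom_apply {A : AlgStr R ι} {r : ι → R} (h : IsChar A r) (x : A.Carrier) :
    h.hom x = ∑ a, x a * r a := rfl

theorem IsChar.hom_basis {A : AlgStr R ι} {r : ι → R} (h : IsChar A r) (a : ι) :
    h.hom (A.basis a) = r a := by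
  rw [h.hom_apply, Finset.sum_eq_single a]
  · rw [AlgStr.basis_apply, if_pos rfl, one_mul]
  · intro b _ hb
    rw [AlgStr.basis_apply, if_neg (Ne.symm hb), zero_mul]
  · intro h'
    exact absurd (Finset.mem_univ _) h'

/-- Distinct characters are linearly independent over the field of fractions. -/
theorem grk_chars {A : AlgStr R ι} {n : ℕ} {r : Fin n → ι → R} (h : ∀ i, IsChar A (r i))
    (hinj : Function.Injective r) : grk (Matrix.of r) = n := by
  classical
  set K := FractionRing R
  set f := algebraMap R K with hf
  have hfi : Function.Injective f := IsFractionRing.injective R K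
  have hom_inj : Function.Injective fun i => (h i).hom := by
    intro i j hij
    apply hinj
    funext a
    have h1 := DFunLike.congr_fun hij (A.basis a)
    simp only at h1
    rwa [(h i).hom_basis, (h j).hom_basis] at h1
  have hli : LinearIndependent R (fun i => ((h i).hom : A.Carrier → R)) :=
    (linearIndependent_monoidHom A.Carrier R).comp _ hom_inj
  have h1 : LinearIndependent R ((Matrix.of r).map f).row := by
    rw [Fintype.linearIndependent_iff] at hli ⊢
    intro c hc i
    refine hli c ?_ i
    funext x
    have h2 : ∀ a, ∑ i, c i * r i a = 0 := by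
      intro a
      have h3 := congrFun hc a
      rw [Finset.sum_apply] at h3
      apply hfi
      rw [map_zero, map_sum, ← show (0 : ι → K) a = 0 from rfl, ← h3]
      refine Finset.sum_congr rfl fun i _ => ?_
      rw [map_mul, Pi.smul_apply, Algebra.smul_def]
      rfl
    rw [Finset.sum_apply]
    show _ = (0 : R)
    have h4 : ∀ i, (c i • ((h i).hom : A.Carrier → R)) x = ∑ a, x a * (c i * r i a) := by
      intro i
      rw [Pi.smul_apply, smul_eq_mul, (h i).hom_apply, Finset.mul_sum]
      refine Finset.sum_congr rfl fun a _ => ?_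
      ring
    rw [Finset.sum_congr rfl fun i _ => h4 i, Finset.sum_comm]
    refine Finset.sum_eq_zero fun a _ => ?_
    rw [← Finset.mul_sum, h2, mul_zero]
  have h2 : LinearIndependent K ((Matrix.of r).map f).row :=
    (LinearIndependent.iff_fractionRing R K).1 h1
  show ((Matrix.of r).map f).rank = n
  rw [Matrix.rank_eq_finrank_span_row, finrank_span_eq_card h2, Fintype.card_fin]

theorem le_srk_of_chars {A : AlgStr R ι} {n : ℕ} {r : Fin n → ι → R} (h : ∀ i, IsChar A (r i))
    (hinj : Function.Injective r) : n ≤ srk A := by
  obtain ⟨Y, hY1, hY2⟩ := exists_kernel (trm A)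
  have hnil : ∀ i, IsNilpotent (show A.Carrier from Y i) := fun i =>
    nilpotent_of_trm_mulVec A (hY2 i)
  set f := algebraMap R (FractionRing R) with hf
  have h0 : ∀ i j, ∑ a, Y i a * r j a = 0 := by
    intro i j
    obtain ⟨m, hm⟩ := hnil i
    have h1 := congrArg (h j).hom hm
    rw [map_pow] at h1
    have h2 : (h j).hom (0 : A.Carrier) = 0 := by
      rw [(h j).hom_apply]
      exact Finset.sum_eq_zero fun a _ => by rw [AlgStr.zero_apply, zero_mul]
    rw [h2] at h1
    have h3 : IsNilpotent ((h j).hom (show A.Carrier from Y i)) := ⟨m, h1⟩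
    exact h3.eq_zero
  have h1 : ((Matrix.of r).map f) * (Y.map f).transpose = 0 := by
    ext j i
    rw [Matrix.mul_apply, Matrix.zero_apply, ← map_zero f, ← h0 i j, map_sum]
    refine Finset.sum_congr rfl fun a _ => ?_
    rw [map_mul, mul_comm]
    rfl
  have h2 := Matrix.rank_add_rank_le_card_of_mul_eq_zero h1
  rw [Matrix.rank_transpose] at h2
  have h3 : ((Matrix.of r).map f).rank = n := grk_chars h hinj
  have h4 : (Y.map f).rank = Fintype.card ι - grk (trm A) := hY1
  have h5 : grk (trm A) ≤ Fintype.card ι := Matrix.rank_le_card_width ((trm A).map f)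
  rw [h3, h4] at h2
  rw [srk]
  omega

/-- The number of characters is at most the rank of the trace form. -/
theorem card_le_srk {A : AlgStr R ι} (P : Finset (ι → R)) (h : ∀ r ∈ P, IsChar A r) :
    P.card ≤ srk A := by
  classical
  let e := P.equivFin
  refine le_srk_of_chars (r := fun i => ((e.symm i : P) : ι → R)) (fun i => h _ (e.symm i).2) ?_
  intro i j hij
  exact e.symm.injective (Subtype.ext hij)

end

end Pool.Agent.SHF
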