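import Pool.Agent.SHF.Top
import Pool.Agent.SHF.Chars

/-!
# The classical equivariant cohomology ring
-/

open scoped BigOperators
open Finset MvPowerSeries

namespace Pool.Agent.SHF

open Pool.Agent.Helper18.Dub Pool.Agent.Helper1.DubProd

theorem TopRel.unique {d : ℤ} {p q q' : Polynomial ℂ} (h : TopRel d p q) (h' : TopRel d p q') :
    q = q' := by
  ext n
  rw [h.2 n, h'.2 n]

namespace EquivGW

variable {ι : Type} [Fintype ι] [DecidableEq ι] {X : FanoGW ι} (T : EquivGW X)

theorem cup_comm (a b k : ι) : T.cupMatT a k b = T.cupMatT b k a := by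
  show ∑ l, T.pairT⁻¹ k l * T.invT X.zero {a, b, l} =
    ∑ l, T.pairT⁻¹ k l * T.invT X.zero {b, a, l}
  refine Finset.sum_congr rfl fun l _ => ?_
  rw [FanoGW.mset_swap a b l]

theorem cup_one (b k : ι) : T.cupMatT X.one k b = if b = k then 1 else 0 := by
  show ∑ l, T.pairT⁻¹ k l * T.invT X.zero {X.one, b, l} = _
  have h0 : T.pairT⁻¹ * T.pairT = 1 := Matrix.nonsing_inv_mul _ T.pair_nondeg
  have h := congrFun (congrFun h0 k) b
  rw [Matrix.mul_apply, Matrix.one_apply] at h
  rw [Finset.sum_congr rfl fun l _ => by rw [T.unit_zero, T.pair_symm b l], h]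
  by_cases hkb : k = b
  · rw [if_pos hkb, if_pos hkb.symm]
  · rw [if_neg hkb, if_neg (fun h' => hkb h'.symm)]

theorem cup_assoc (a b c k : ι) : ∑ l, T.cupMatT a l b * T.cupMatT l k c =
    ∑ l, T.cupMatT b l c * T.cupMatT a k l := by
  have h1 : TopRel ((X.deg a : ℤ) + X.deg b + X.deg c - X.deg k)
      (∑ l, T.smallQHT.m a b l * T.smallQHT.m l c k)
      (∑ l, T.cupMatT a l b * T.cupMatT l k c) := by
    refine TopRel.sum _ fun l _ => ?_
    have h := (T.m_top a b l).mul (T.m_top l c k)
    have hd : (X.deg a : ℤ) + X.deg b - X.deg l + ((X.deg l : ℤ) + X.deg c - X.deg k) =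
        (X.deg a : ℤ) + X.deg b + X.deg c - X.deg k := by ring
    rwa [hd] at h
  have h2 : TopRel ((X.deg a : ℤ) + X.deg b + X.deg c - X.deg k)
      (∑ l, T.smallQHT.m b c l * T.smallQHT.m a l k)
      (∑ l, T.cupMatT b l c * T.cupMatT a k l) := by
    refine TopRel.sum _ fun l _ => ?_
    have h := (T.m_top b c l).mul (T.m_top a l k)
    have hd : (X.deg b : ℤ) + X.deg c - X.deg l + ((X.deg a : ℤ) + X.deg l - X.deg k) =
        (X.deg a : ℤ) + X.deg b + X.deg c - X.deg k := by ring
    rwa [hd] at h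
  rw [← T.smallQHT.assoc] at h2
  exact h1.unique h2

/-- The classical equivariant cohomology ring. -/
noncomputable def cupAlg : AlgStr (Polynomial ℂ) ι where
  m := fun a b k => T.cupMatT a k b
  one := X.one
  comm := T.cup_comm
  one_mul := T.cup_one
  assoc := T.cup_assoc

theorem fixedRank_eq : T.fixedRank = srk T.cupAlg := by
  rw [srk, grk]
  show ((Matrix.of fun a b => (T.cupMatT a * T.cupMatT b).trace).map
    (algebraMap (Polynomial ℂ) (FractionRing (Polynomial ℂ)))).rank = _
  congr 2
  ext1 a b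
  rw [Matrix.of_apply, trm, Algebra.traceMatrix_apply, AlgStr.traceForm_basis, Matrix.trace]
  refine Finset.sum_congr rfl fun k _ => ?_
  rw [Matrix.diag_apply, Matrix.mul_apply]
  rfl

/-- The number of restrictions to fixed points is at most the rank of the trace form. -/
theorem card_le_fixedRank (P : Finset (ι → Polynomial ℂ)) (h : ∀ r ∈ P, IsChar T.cupAlg r) :
    P.card ≤ T.fixedRank := by
  rw [T.fixedRank_eq]
  exact card_le_srk P h

end EquivGW

end Pool.Agent.SHF
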