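import Pool.Agent.SHF.Emb

/-!
# Expansion at an arbitrary value of the equivariant parameter
-/

open scoped BigOperators
open Finset MvPowerSeries

namespace Pool.Agent.SHF

variable {ι : Type}

/-- the substitution `λ ↦ λ + c`, coefficientwise -/
noncomputable def shiftMap (c : ℂ) :
    MvPowerSeries ι (Polynomial ℂ) →+* MvPowerSeries ι (Polynomial ℂ) :=
  MvPowerSeries.map (Polynomial.taylorAlgHom c).toRingHom

theorem coeff_shiftMap (c : ℂ) (f : MvPowerSeries ι (Polynomial ℂ)) (m : ι →₀ ℕ) :
    coeff m (shiftMap c f) = Polynomial.taylor c (coeff m f) := rfl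

theorem shiftMap_injective (c : ℂ) : Function.Injective (shiftMap (ι := ι) c) := by
  intro f g h
  ext1 m
  have h1 := congrArg (coeff m) h
  rw [coeff_shiftMap, coeff_shiftMap] at h1
  exact Polynomial.taylor_injective c h1

theorem shiftMap_pderiv (c : ℂ) (a : ι) (f : MvPowerSeries ι (Polynomial ℂ)) :
    pderiv (Polynomial ℂ) a (shiftMap c f) = shiftMap c (pderiv (Polynomial ℂ) a f) := by
  classical
  ext1 m
  rw [coeff_shiftMap, coeff_pderiv, coeff_pderiv, coeff_shiftMap, Polynomial.taylor_mul]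
  congr 1
  have h : ((m a : Polynomial ℂ) + 1) = Polynomial.C ((m a : ℂ) + 1) := by
    rw [map_add, map_natCast, map_one]
  rw [h, Polynomial.taylor_C]

theorem shiftMap_mapDeriv (c : ℂ) (f : MvPowerSeries ι (Polynomial ℂ)) :
    mapDeriv (shiftMap c f) = shiftMap c (mapDeriv f) := by
  ext1 m
  rw [coeff_shiftMap, coeff_mapDeriv, coeff_mapDeriv, coeff_shiftMap, Polynomial.taylor_apply,
    Polynomial.taylor_apply, Polynomial.derivative_comp]
  simp

theorem eval_shiftMap (c : ℂ) (f : MvPowerSeries ι (Polynomial ℂ)) :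
    MvPowerSeries.map (Polynomial.evalRingHom (0 : ℂ)) (shiftMap c f) =
      MvPowerSeries.map (Polynomial.evalRingHom c) f := by
  ext1 m
  rw [coeff_map, coeff_map, coeff_shiftMap, Polynomial.coe_evalRingHom,
    Polynomial.coe_evalRingHom, Polynomial.taylor_eval, zero_add]

/-- a power series in `t` with coefficients in `ℂ[λ]` as a power series in `(λ - c, t)` -/
noncomputable def embAt (c : ℂ) : MvPowerSeries ι (Polynomial ℂ) →+* MvPowerSeries (Unit ⊕ ι) ℂ :=
  emb.comp (shiftMap c)

theorem embAt_injective (c : ℂ) : Function.Injective (embAt (ι := ι) c) :=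
  emb_injective.comp (shiftMap_injective c)

theorem embAt_pderiv (c : ℂ) (a : ι) (f : MvPowerSeries ι (Polynomial ℂ)) :
    pderiv ℂ (Sum.inr a) (embAt c f) = embAt c (pderiv (Polynomial ℂ) a f) := by
  rw [embAt, RingHom.comp_apply, RingHom.comp_apply, emb_pderiv, shiftMap_pderiv]

theorem embAt_deriv (c : ℂ) (f : MvPowerSeries ι (Polynomial ℂ)) :
    pderiv ℂ (Sum.inl ()) (embAt c f) = embAt c (mapDeriv f) := by
  rw [embAt, RingHom.comp_apply, RingHom.comp_apply, emb_deriv, shiftMap_mapDeriv]

theorem killCompl_embAt (c : ℂ) (f : MvPowerSeries ι (Polynomial ℂ)) :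
    killCompl (R := ℂ) (Function.Embedding.inr : ι ↪ Unit ⊕ ι) (embAt c f) =
      MvPowerSeries.map (Polynomial.evalRingHom c) f := by
  rw [embAt, RingHom.comp_apply, killCompl_emb, eval_shiftMap]

end Pool.Agent.SHF
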