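import Pool.Agent.SHF.Core
import Pool.Agent.SHF.Coef
import Pool.Agent.SHF.Cup
import Pool.Agent.SHF.EmbAt

/-!
# Fano manifolds with a torus action: the theorem
-/

open scoped BigOperators
open Finset MvPowerSeries

namespace Pool.Agent.SHF

open Pool.Agent.Helper18.Dub Pool.Agent.Helper1.DubProd

namespace TorusGW

variable {ι : Type} [Fintype ι] [DecidableEq ι] {X : FanoGW ι} (T : TorusGW X)

/-- equivariant big quantum cohomology over the power series in `(λ - c, t)` -/
noncomputable def QL (c : ℂ) : AlgStr (MvPowerSeries (Unit ⊕ ι) ℂ) ι := T.QHT.map (embAt c)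

theorem QL_matOf (c : ℂ) (a : ι) : (T.QL c).matOf a = (T.mulMatT a).map (embAt c) := rfl

theorem shiftData (c : ℂ) : ShiftData (T.QL c) (fun a => pderiv ℂ (Sum.inr a))
    (pderiv ℂ (Sum.inl ())) (T.k : ℂ) (T.S0.map (embAt c)) (T.S1.map (embAt c)) where
  pot := fun a b d k => by
    show pderiv ℂ (Sum.inr a) (embAt c (T.scT b d k)) =
      pderiv ℂ (Sum.inr b) (embAt c (T.scT a d k))
    rw [embAt_pderiv, embAt_pderiv, T.pderiv_scT]
  comm := fun a => by
    rw [QL_matOf, ← Matrix.map_mul, ← Matrix.map_mul, T.comm]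
  first := fun a => by
    have h1 : (T.S0.map (embAt c)).map (pderiv ℂ (Sum.inr a)) =
        (T.S0.map (pderiv (Polynomial ℂ) a)).map (embAt c) := by
      ext1 i j
      rw [Matrix.map_apply, Matrix.map_apply, Matrix.map_apply, Matrix.map_apply, embAt_pderiv]
    have h2 : ((T.mulMatT a).map (embAt c)).map (pderiv ℂ (Sum.inl ())) =
        ((T.mulMatT a).map mapDeriv).map (embAt c) := by
      ext1 i j
      rw [Matrix.map_apply, Matrix.map_apply, Matrix.map_apply, Matrix.map_apply, embAt_deriv]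
    have h3 : (T.k : ℂ) • (T.S0.map (embAt c) * ((T.mulMatT a).map mapDeriv).map (embAt c)) =
        ((T.k : MvPowerSeries ι (Polynomial ℂ)) •
          (T.S0 * (T.mulMatT a).map mapDeriv)).map (embAt c) := by
      rw [← Matrix.map_mul]
      ext1 i j
      rw [Matrix.smul_apply, Matrix.map_apply, Matrix.map_apply, Matrix.smul_apply, smul_eq_mul,
        map_mul, map_intCast, Algebra.smul_def, map_intCast]
    have h4 : ∀ M N : Matrix ι ι (MvPowerSeries ι (Polynomial ℂ)),
        M.map (embAt c) + N.map (embAt c) = (M + N).map (embAt c) := by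
      intro M N
      ext1 i j
      rw [Matrix.add_apply, Matrix.map_apply, Matrix.map_apply, Matrix.map_apply,
        Matrix.add_apply, map_add]
    rw [QL_matOf, h1, h2, h3, ← Matrix.map_mul, ← Matrix.map_mul, h4, h4, T.first]
  unit := by
    have h : (T.S0.map (embAt c)).det = embAt c T.S0.det := by
      rw [RingHom.map_det]
      rfl
    rw [h]
    exact T.isUnit_S0.map (embAt c)

theorem pderiv_inr_X (a : ι) :
    pderiv ℂ (Sum.inr a) (MvPowerSeries.X (Sum.inl ()) : MvPowerSeries (Unit ⊕ ι) ℂ) = 0 := by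
  classical
  rw [pderiv_X, Pi.single_eq_of_ne]
  exact Sum.inl_ne_inr

theorem exists_eulerType (c : ℂ) : ∃ Θ : (T.QL c).Carrier → (T.QL c).Carrier,
    IsEulerType (Function.Embedding.inr : ι ↪ Unit ⊕ ι) Θ := by
  classical
  have hk : (T.k : ℂ) ≠ 0 := Int.cast_ne_zero.2 T.k_ne
  obtain ⟨Ξ, hadd, hmul, hsmul⟩ := (T.shiftData c).exists_der hk
  have hone : Ξ 1 = 0 := by
    have h := hmul 1 1
    rw [mul_one, mul_one, one_mul] at h
    exact left_eq_add.1 h
  refine ⟨fun x => (MvPowerSeries.X (Sum.inl ()) : MvPowerSeries (Unit ⊕ ι) ℂ) • Ξ x, ?_⟩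
  refine ⟨?_, ?_, ?_, ?_, ?_⟩
  · intro x y
    rw [hadd, smul_add]
  · intro x y
    rw [hmul, smul_add, smul_mul_assoc, mul_smul_comm]
  · intro c x
    rw [hsmul (MvPowerSeries.C c) (fun a => pderiv_C), pderiv_C, zero_smul, zero_add, smul_comm]
  · intro j hj
    rcases j with u | i
    · rw [hsmul _ (fun a => pderiv_inr_X a), hone, smul_zero, add_zero, pderiv_X,
        Pi.single_eq_same, one_smul]
    · exact absurd ⟨i, rfl⟩ hj
  · intro x i
    rw [AlgStr.smul_apply]
    have h0 : (Sum.inl () : Unit ⊕ ι) ∉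
        Set.range (Function.Embedding.inr : ι ↪ Unit ⊕ ι) := by
      rintro ⟨y, hy⟩
      cases hy
    have := (fil_zero (e := (Function.Embedding.inr : ι ↪ Unit ⊕ ι)) (Ξ x i)).X_mul h0
    exact this

/-- equivariant big quantum cohomology at the value `c` of the parameter -/
noncomputable def QAt (c : ℂ) : AlgStr (MvPowerSeries ι ℂ) ι :=
  T.QHT.map (MvPowerSeries.map (Polynomial.evalRingHom c))

theorem QL_map (c : ℂ) :
    (T.QL c).map (killCompl (R := ℂ) (Function.Embedding.inr : ι ↪ Unit ⊕ ι)).toRingHom =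
      T.QAt c := by
  have hm : ∀ a b k : ι,
      ((T.QL c).map (killCompl (R := ℂ) (Function.Embedding.inr : ι ↪ Unit ⊕ ι)).toRingHom).m
        a b k = (T.QAt c).m a b k := by
    intro a b k
    exact killCompl_embAt c (T.scT a b k)
  unfold QAt AlgStr.map
  congr 1
  funext a b k
  exact hm a b k

theorem srk_QAt (c : ℂ) : srk (T.QAt c) = srk T.QHT := by
  obtain ⟨Θ, hΘ⟩ := T.exists_eulerType c
  have h1 := hΘ.srk_res
  rw [QL_map] at h1
  rw [h1]
  exact srk_map_of_injective T.QHT (embAt c) (embAt_injective c)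

theorem srk_eq : srk T.QHT = srk X.QH := by
  rw [← T.srk_QAt 0, QAt, T.QHT_map_zero]

theorem traceRankAt_eq (c : ℂ) : T.traceRankAt c = srk (T.QAt c) := by
  rw [srk, grk]
  show ((Matrix.of fun a b => (T.mulMatAt c a * T.mulMatAt c b).trace).map
    (algebraMap (MvPowerSeries ι ℂ) (FractionRing (MvPowerSeries ι ℂ)))).rank = _
  congr 2
  ext1 a b
  rw [Matrix.of_apply, trm, Algebra.traceMatrix_apply, AlgStr.traceForm_basis, Matrix.trace]
  refine Finset.sum_congr rfl fun k _ => ?_
  rw [Matrix.diag_apply, Matrix.mul_apply]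
  rfl

theorem isGenericallySemisimpleAt_iff (c : ℂ) :
    T.IsGenericallySemisimpleAt c ↔ (T.QAt c).GenericallySemisimple := by
  rw [EquivData.IsGenericallySemisimpleAt, AlgStr.GenericallySemisimple, AlgStr.isSemisimple_iff,
    matAlg]
  rfl

theorem main : (T.traceRankT = traceRank X ∧
      (T.IsGenericallySemisimpleT ↔ X.IsGenericallySemisimple)) ∧
    (∀ c : ℂ, T.traceRankAt c = traceRank X ∧
      (T.IsGenericallySemisimpleAt c ↔ X.IsGenericallySemisimple)) ∧
    (T.fixedRank ≤ traceRank X ∧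
      (T.fixedRank = Fintype.card ι → X.IsGenericallySemisimple)) ∧
    ∀ P : Finset (ι → Polynomial ℂ), (∀ r ∈ P, T.IsRestriction r) →
      P.card ≤ traceRank X ∧ (P.card = Fintype.card ι → X.IsGenericallySemisimple) := by
  have h2 : T.fixedRank ≤ traceRank X := by
    rw [traceRank_eq_srk, ← T.srk_eq]
    exact T.fixedRank_le
  have h3 : traceRank X = Fintype.card ι ↔ X.IsGenericallySemisimple := by
    rw [traceRank_eq_srk, X.isGenericallySemisimple_iff, AlgStr.genericallySemisimple_iff,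
      srk_eq_card_iff]
  have h4 : ∀ n, n ≤ traceRank X → n = Fintype.card ι → X.IsGenericallySemisimple := by
    intro n h5 h6
    refine h3.1 (le_antisymm ?_ ?_)
    · rw [traceRank_eq_srk]
      exact Matrix.rank_le_card_width ((trm X.QH).map (algebraMap _ (FractionRing _)))
    · rw [← h6]
      exact h5
  refine ⟨⟨?_, ?_⟩, fun c => ⟨?_, ?_⟩, ⟨h2, h4 _ h2⟩, fun P hP => ?_⟩
  · rw [T.traceRankT_eq, traceRank_eq_srk, srk_eq]
  · rw [T.isGenericallySemisimpleT_iff, AlgStr.genericallySemisimple_iff, ← srk_eq_card_iff,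
      T.srk_eq, srk_eq_card_iff, X.isGenericallySemisimple_iff, AlgStr.genericallySemisimple_iff]
  · rw [T.traceRankAt_eq, T.srk_QAt, T.srk_eq, traceRank_eq_srk]
  · rw [T.isGenericallySemisimpleAt_iff, AlgStr.genericallySemisimple_iff, ← srk_eq_card_iff,
      T.srk_QAt, T.srk_eq, srk_eq_card_iff, X.isGenericallySemisimple_iff,
      AlgStr.genericallySemisimple_iff]
  · have h5 : P.card ≤ traceRank X :=
      (T.card_le_fixedRank P fun r hr => ⟨(hP r hr).one, (hP r hr).mul⟩).trans h2
    exact ⟨h5, h4 _ h5⟩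

end TorusGW

end Pool.Agent.SHF
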