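import Pool.Agent.Helper18.Dub.GWDefs
import Pool.Agent.Helper1.DubProd.Defs

/-!
# Torus-equivariant genus-zero Gromov–Witten theory and shift operators

`X` is a Fano manifold with an action of `T = ℂ^*`, and `H_T^*(pt) = ℂ[λ]`. The structure `FanoGW`
(`Pool/Agent/Helper18/Dub/GWDefs.lean`) is the non-equivariant genus-zero theory of `X` in a
homogeneous basis `φ_i`, `i : ι`, of `H^*(X)`. All sums over curve classes are finite for a Fano
manifold, so the Novikov variables are set to `1`.
-/

open scoped BigOperators
open Finset MvPowerSeries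

namespace Pool.Agent.SHF

open Pool.Agent.Helper18.Dub

instance instIsDomainMvPowerSeriesPoly (κ : Type) : IsDomain (MvPowerSeries κ (Polynomial ℂ)) :=
  NoZeroDivisors.to_isDomain _

/-- The data of `T`-equivariant genus-zero Gromov–Witten numbers of `X` in a homogeneous basis of
the free `ℂ[λ]`-module `H_T^*(X)` which lifts the basis `φ_i` of `H^*(X)` (and `1` is lifted
to `1`). -/
structure EquivData {ι : Type} [Fintype ι] [DecidableEq ι] (X : FanoGW ι) where
  /-- the equivariant Poincaré pairing `∫_X φ_i ∪ φ_j` in `ℂ[λ]` -/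
  pairT : Matrix ι ι (Polynomial ℂ)
  /-- `invT β {i_1, …, i_n} = ⟨φ_{i_1}, …, φ_{i_n}⟩_{0,n,β}` in `ℂ[λ]` -/
  invT : X.Curve → Multiset ι → Polynomial ℂ

namespace EquivData

variable {ι : Type} [Fintype ι] [DecidableEq ι] {X : FanoGW ι} (T : EquivData X)

/-- `⟨φ_{i_1}, …, φ_{i_n}⟩ = ∑_β ⟨φ_{i_1}, …, φ_{i_n}⟩_{0,n,β}`. -/
noncomputable def corrT (s : Multiset ι) : Polynomial ℂ := ∑ᶠ β, T.invT β s

/-- `⟨⟨φ_{i_1}, …, φ_{i_n}⟩⟩(t) = ∑_l (1/l!) ⟨φ_{i_1}, …, φ_{i_n}, t, …, t⟩`, `t = ∑ t_i φ_i`, a
power series in the `t_i` with coefficients in `ℂ[λ]`. -/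
noncomputable def serT (s : Multiset ι) : MvPowerSeries ι (Polynomial ℂ) :=
  fun m => Polynomial.C (∏ i, ((m i).factorial : ℂ))⁻¹ * T.corrT (s + Finsupp.toMultiset m)

/-- Structure constants of the equivariant big quantum product. -/
noncomputable def scT (a b k : ι) : MvPowerSeries ι (Polynomial ℂ) :=
  ∑ l, C (T.pairT⁻¹ k l) * T.serT {a, b, l}

/-- The matrix of equivariant big quantum multiplication `φ_a •` (at the point `t`, with
equivariant parameter `λ`). -/
noncomputable def mulMatT (a : ι) : Matrix ι ι (MvPowerSeries ι (Polynomial ℂ)) :=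
  Matrix.of fun k b => T.scT a b k

/-- The matrix of the classical equivariant cup product `φ_a ∪` on `H_T^*(X)`. -/
noncomputable def cupMatT (a : ι) : Matrix ι ι (Polynomial ℂ) := Matrix.of fun k b =>
  ∑ l, T.pairT⁻¹ k l * T.invT X.zero {a, b, l}

/-- Equivariant big quantum cohomology is semisimple at the generic point `(t, λ)`. -/
def IsGenericallySemisimpleT : Prop := IsSemisimpleRing (matAlg T.mulMatT)

/-- The rank, over the field of fractions of `ℂ[λ][[t]]`, of the trace form
`(φ_a, φ_b) ↦ tr (φ_a • φ_b •)` of equivariant big quantum cohomology, that is the number of its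
canonical coordinates. -/
noncomputable def traceRankT : ℕ :=
  ((Matrix.of fun a b => (T.mulMatT a * T.mulMatT b).trace).map
    (algebraMap (MvPowerSeries ι (Polynomial ℂ))
      (FractionRing (MvPowerSeries ι (Polynomial ℂ))))).rank

/-- The matrix of `φ_a •` at the value `c` of the equivariant parameter. -/
noncomputable def mulMatAt (c : ℂ) (a : ι) : Matrix ι ι (MvPowerSeries ι ℂ) :=
  (T.mulMatT a).map (MvPowerSeries.map (Polynomial.evalRingHom c))

/-- Equivariant big quantum cohomology is semisimple at the generic point `t`, for the value `c` of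
the equivariant parameter. -/
def IsGenericallySemisimpleAt (c : ℂ) : Prop := IsSemisimpleRing (matAlg (T.mulMatAt c))

/-- The number of canonical coordinates for the value `c` of the equivariant parameter. -/
noncomputable def traceRankAt (c : ℂ) : ℕ :=
  ((Matrix.of fun a b => (T.mulMatAt c a * T.mulMatAt c b).trace).map
    (algebraMap (MvPowerSeries ι ℂ) (FractionRing (MvPowerSeries ι ℂ)))).rank

/-- `r` is a homomorphism `H_T^*(X) → ℂ[λ]` of rings over `ℂ[λ]`, given by its values on the basis;
for example the restriction `H_T^*(X) → H_T^*(p)` to a fixed point `p`. Two fixed points have the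
same restriction if and only if they are in the same connected component of `X^T`. -/
structure IsRestriction (r : ι → Polynomial ℂ) : Prop where
  one : r X.one = 1
  mul : ∀ a b, r a * r b = ∑ k, T.cupMatT a k b * r k

/-- The rank, over `ℂ(λ)`, of the trace form `(φ_a, φ_b) ↦ tr (φ_a ∪ φ_b ∪)` of the localised
equivariant cohomology ring `H_T^*(X) ⊗ ℂ(λ) = H^*(X^T) ⊗ ℂ(λ)`. This is the number of connected
components of the fixed locus `X^T`; it is equal to `dim H^*(X)` if and only if `X^T` is
finite. -/
noncomputable def fixedRank : ℕ :=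
  ((Matrix.of fun a b => (T.cupMatT a * T.cupMatT b).trace).map
    (algebraMap (Polynomial ℂ) (FractionRing (Polynomial ℂ)))).rank

end EquivData

/-- Axioms of the equivariant genus-zero theory. -/
structure EquivGW {ι : Type} [Fintype ι] [DecidableEq ι] (X : FanoGW ι) extends
    EquivData X where
  /-- the non-equivariant limit `λ = 0` is the theory of `X` -/
  pair_zero : ∀ i j, (pairT i j).eval 0 = X.pair i j
  inv_zero : ∀ β s, (invT β s).eval 0 = X.inv β s
  pair_symm : ∀ i j, pairT i j = pairT j i
  pair_nondeg : IsUnit pairT.det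
  /-- dimension axioms: `λ` has degree `1` -/
  pair_deg : ∀ i j n, (pairT i j).coeff n ≠ 0 → X.deg i + X.deg j = X.dim + n
  dimension : ∀ β s n, (invT β s).coeff n ≠ 0 →
    (s.map X.deg).sum + 3 = X.dim + Multiset.card s + X.c1 β + n
  /-- unit axiom -/
  unit_zero : ∀ i j, invT X.zero {X.one, i, j} = pairT i j
  unit_ne : ∀ β i j, β ≠ X.zero → invT β {X.one, i, j} = 0
  unit_many : ∀ β s, 3 ≤ Multiset.card s → invT β (X.one ::ₘ s) = 0
  /-- WDVV equations -/
  wdvv : ∀ a b c d,
    ∑ e, ∑ f, C (pairT⁻¹ e f) * toEquivData.serT {a, b, e} * toEquivData.serT {f, c, d} =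
    ∑ e, ∑ f, C (pairT⁻¹ e f) * toEquivData.serT {b, c, e} * toEquivData.serT {f, a, d}

/-- The substitution `λ ↦ λ - k z`, from `ℂ[λ]` to `ℂ[λ][z]`. -/
noncomputable def shiftHom (k : ℤ) : Polynomial ℂ →+* Polynomial (Polynomial ℂ) :=
  Polynomial.eval₂RingHom (Polynomial.C.comp Polynomial.C)
    (Polynomial.C Polynomial.X - (k : Polynomial (Polynomial ℂ)) * Polynomial.X)

/-- The genus-zero Gromov–Witten theory of a Fano manifold `X` with an action of `T = ℂ^*`: the
equivariant theory and the shift operator `S = S(t, λ, z)` of a cocharacter `k ≠ 0` of `T`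
(Okounkov–Pandharipande, Braverman–Maulik–Okounkov, Maulik–Okounkov; Iritani 2017, where it is
defined by the section invariants of the `X`-bundle over `ℙ^1` associated with `k`). Its entries are
power series in `t` with coefficients in `ℂ[λ][z]`, because `X` is compact; it is invertible (the
inverse is the shift operator of `-k`); and it intertwines the quantum connections
`z ∂_a + φ_a •` at the parameters `λ - k z` and `λ`. -/
structure TorusGW {ι : Type} [Fintype ι] [DecidableEq ι] (X : FanoGW ι) extends EquivGW X where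
  k : ℤ
  k_ne : k ≠ 0
  S : Matrix ι ι (MvPowerSeries ι (Polynomial (Polynomial ℂ)))
  isUnit_S : IsUnit S.det
  intertwine : ∀ a,
    (C (Polynomial.X : Polynomial (Polynomial ℂ)) : MvPowerSeries ι (Polynomial (Polynomial ℂ))) •
        S.map (pderiv (Polynomial (Polynomial ℂ)) a) +
      (toEquivData.mulMatT a).map (MvPowerSeries.map Polynomial.C) * S =
    S * (toEquivData.mulMatT a).map (MvPowerSeries.map (shiftHom k))

end Pool.Agent.SHF
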