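import Pool.Agent.Helper1.DubProd.Der
import Pool.Agent.Helper18.Dub.Bridge

/-!
# The derivation given by a shift operator

`A` is an algebra with structure constants over `R`, `D a` and `L` are derivations of `R` and
`S0`, `S1` satisfy the first two coefficients of the intertwining relation of a shift operator. Then
`A` has a derivation which extends `L` on the elements of `R` killed by all `D a`.
-/

open scoped BigOperators
open Finset

namespace Pool.Agent.SHF

open Pool.Agent.Helper18.Dub Pool.Agent.Helper1.DubProd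

variable {R : Type} [CommRing R] [Algebra ℂ R] {ι : Type} [Fintype ι] [DecidableEq ι]

/-- The first two coefficients of a shift operator. -/
structure ShiftData (A : AlgStr R ι) (D : ι → Derivation ℂ R R) (L : Derivation ℂ R R) (κ : ℂ)
    (S0 S1 : Matrix ι ι R) : Prop where
  pot : ∀ a b c k, D a (A.m b c k) = D b (A.m a c k)
  comm : ∀ a, A.matOf a * S0 = S0 * A.matOf a
  first : ∀ a, S0.map (D a) + A.matOf a * S1 + κ • (S0 * (A.matOf a).map L) = S1 * A.matOf a
  unit : IsUnit S0.det

namespace Core

variable {A : AlgStr R ι}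

/-- a matrix acting on the algebra -/
def act (M : Matrix ι ι R) (x : A.Carrier) : A.Carrier := M.mulVec x

theorem act_apply (M : Matrix ι ι R) (x : A.Carrier) (k : ι) : act M x k = ∑ b, M k b * x b := rfl

theorem act_add (M : Matrix ι ι R) (x y : A.Carrier) : act M (x + y) = act M x + act M y :=
  Matrix.mulVec_add M x y

theorem act_smul (M : Matrix ι ι R) (r : R) (x : A.Carrier) : act M (r • x) = r • act M x :=
  Matrix.mulVec_smul M r x

theorem act_sum (M : Matrix ι ι R) {β : Type*} (s : Finset β) (f : β → A.Carrier) :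
    act M (∑ b ∈ s, f b) = ∑ b ∈ s, act M (f b) := by
  classical
  induction s using Finset.induction_on with
  | empty => exact Matrix.mulVec_zero M
  | insert b s hb ih => rw [Finset.sum_insert hb, Finset.sum_insert hb, act_add, ih]

theorem act_mul (M N : Matrix ι ι R) (x : A.Carrier) : act (M * N) x = act M (act N x) :=
  (Matrix.mulVec_mulVec x M N).symm

theorem act_one (x : A.Carrier) : act (1 : Matrix ι ι R) x = x := Matrix.one_mulVec x

theorem act_basis (M : Matrix ι ι R) (d k : ι) : act M (A.basis d) k = M k d := by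
  rw [act_apply, Finset.sum_eq_single d]
  · rw [AlgStr.basis_apply, if_pos rfl, mul_one]
  · intro b _ hb
    rw [AlgStr.basis_apply, if_neg (Ne.symm hb), mul_zero]
  · intro h
    exact absurd (Finset.mem_univ _) h

theorem basis_mul_apply (a : ι) (x : A.Carrier) (k : ι) :
    (A.basis a * x) k = ∑ l, x l * A.m a l k := by
  rw [AlgStr.mul_apply]
  rw [Finset.sum_eq_single a]
  · refine Finset.sum_congr rfl fun l _ => ?_
    rw [AlgStr.basis_apply, if_pos rfl, one_mul]
  · intro b _ hb
    refine Finset.sum_eq_zero fun l _ => ?_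
    rw [AlgStr.basis_apply, if_neg (Ne.symm hb), zero_mul, zero_mul]
  · intro h
    exact absurd (Finset.mem_univ _) h

theorem act_matOf (a : ι) (x : A.Carrier) : act (A.matOf a) x = A.basis a * x := by
  funext k
  rw [act_apply, basis_mul_apply]
  refine Finset.sum_congr rfl fun l _ => ?_
  rw [mul_comm]
  rfl

theorem eq_sum_basis (x : A.Carrier) : x = ∑ c, x c • A.basis c := by
  conv_lhs => rw [← A.basis.sum_repr x]
  rfl

theorem basis_mul_basis (a d : ι) : A.basis a * A.basis d = ∑ l, A.m a d l • A.basis l := by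
  rw [eq_sum_basis (A.basis a * A.basis d)]
  refine Finset.sum_congr rfl fun l _ => ?_
  rw [AlgStr.basis_mul_basis]

/-- coordinatewise application of a derivation -/
def cw (δ : Derivation ℂ R R) (x : A.Carrier) : A.Carrier := fun k => δ (x k)

theorem cw_apply (δ : Derivation ℂ R R) (x : A.Carrier) (k : ι) : cw δ x k = δ (x k) := rfl

theorem cw_add (δ : Derivation ℂ R R) (x y : A.Carrier) : cw δ (x + y) = cw δ x + cw δ y := by
  funext k
  rw [cw_apply, AlgStr.add_apply, map_add]
  rfl

theorem cw_smul (δ : Derivation ℂ R R) (f : R) (x : A.Carrier) :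
    cw δ (f • x) = δ f • x + f • cw δ x := by
  funext k
  rw [cw_apply, AlgStr.smul_apply, Derivation.leibniz, AlgStr.add_apply, AlgStr.smul_apply,
    AlgStr.smul_apply, cw_apply, smul_eq_mul, smul_eq_mul]
  ring

/-- derivative of the structure constants -/
def dm (A : AlgStr R ι) (δ : Derivation ℂ R R) (b c : ι) : A.Carrier := fun k => δ (A.m b c k)

theorem dm_apply (δ : Derivation ℂ R R) (b c k : ι) : dm A δ b c k = δ (A.m b c k) := rfl

theorem dm_comm (δ : Derivation ℂ R R) (b c : ι) : dm A δ b c = dm A δ c b := by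
  funext k
  rw [dm_apply, dm_apply, A.comm]

theorem dm_one (δ : Derivation ℂ R R) (b : ι) : dm A δ b A.one = 0 := by
  funext k
  rw [dm_apply, A.comm, A.one_mul]
  show _ = (0 : R)
  split_ifs
  · exact δ.map_one_eq_zero
  · exact map_zero δ

theorem cw_basis (δ : Derivation ℂ R R) (b : ι) : cw δ (A.basis b) = 0 := by
  funext k
  rw [cw_apply, AlgStr.basis_apply]
  show _ = (0 : R)
  split_ifs
  · exact δ.map_one_eq_zero
  · exact map_zero δ

/-- the bilinear error term in the Leibniz rule -/
def err (δ : Derivation ℂ R R) (x y : A.Carrier) : A.Carrier :=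
  ∑ b, ∑ c, (x b * y c) • dm A δ b c

theorem cw_mul (δ : Derivation ℂ R R) (x y : A.Carrier) :
    cw δ (x * y) = cw δ x * y + x * cw δ y + err δ x y := by
  funext k
  rw [err, AlgStr.add_apply, AlgStr.add_apply, AlgStr.mul_apply, AlgStr.mul_apply, cw_apply,
    AlgStr.mul_apply, map_sum, carrier_sum_apply, ← Finset.sum_add_distrib,
    ← Finset.sum_add_distrib]
  refine Finset.sum_congr rfl fun c _ => ?_
  rw [map_sum, carrier_sum_apply, ← Finset.sum_add_distrib, ← Finset.sum_add_distrib]
  refine Finset.sum_congr rfl fun d _ => ?_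
  rw [Derivation.leibniz, Derivation.leibniz, AlgStr.smul_apply, dm_apply, cw_apply, cw_apply,
    smul_eq_mul, smul_eq_mul, smul_eq_mul, smul_eq_mul]
  ring

theorem err_basis (δ : Derivation ℂ R R) (d : ι) (y : A.Carrier) :
    err δ (A.basis d) y = ∑ c, y c • dm A δ d c := by
  rw [err, Finset.sum_eq_single d]
  · refine Finset.sum_congr rfl fun l _ => ?_
    rw [AlgStr.basis_apply, if_pos rfl, one_mul]
  · intro b _ hb
    refine Finset.sum_eq_zero fun l _ => ?_
    rw [AlgStr.basis_apply, if_neg (Ne.symm hb), zero_mul, zero_smul]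
  · intro h
    exact absurd (Finset.mem_univ _) h

variable {D : ι → Derivation ℂ R R} {L : Derivation ℂ R R} {κ : ℂ} {S0 S1 : Matrix ι ι R}

section

variable (h : ShiftData A D L κ S0 S1)

include h

theorem act_S0_mul (x y : A.Carrier) : act S0 (x * y) = x * act S0 y := by
  have h1 : ∀ a, act S0 (A.basis a * y) = A.basis a * act S0 y := by
    intro a
    rw [← act_matOf, ← act_matOf, ← act_mul, ← act_mul, h.comm]
  rw [eq_sum_basis x, Finset.sum_mul, Finset.sum_mul, act_sum]
  refine Finset.sum_congr rfl fun a _ => ?_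
  rw [smul_mul_assoc, smul_mul_assoc, act_smul, h1]

theorem act_S0 (x : A.Carrier) : act S0 x = x * act S0 1 := by
  rw [← act_S0_mul h, mul_one]

/-- the first order relation, as an identity in the algebra -/
theorem first_basis (a d : ι) : cw (D a) (A.basis d * act S0 1) +
    A.basis a * act S1 (A.basis d) + algebraMap ℂ R κ • (dm A L a d * act S0 1) =
      act S1 (A.basis a * A.basis d) := by
  funext k
  have h1 := congrFun (congrFun (h.first a) k) d
  rw [Matrix.add_apply, Matrix.add_apply, Matrix.map_apply, Matrix.smul_apply, Matrix.mul_apply,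
    Matrix.mul_apply, Matrix.mul_apply, Algebra.smul_def] at h1
  rw [AlgStr.add_apply, AlgStr.add_apply, AlgStr.smul_apply, cw_apply, ← act_S0 h, act_basis,
    ← act_matOf, act_apply, ← act_S0 h, act_apply, act_apply]
  have h2 : ∑ b, A.matOf a k b * act S1 (A.basis d) b = ∑ b, A.matOf a k b * S1 b d :=
    Finset.sum_congr rfl fun b _ => by rw [act_basis]
  have h3 : ∑ b, S1 k b * (A.basis a * A.basis d) b = ∑ b, S1 k b * A.matOf a b d :=
    Finset.sum_congr rfl fun b _ => by
      rw [AlgStr.basis_mul_basis]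
      rfl
  rw [h2, h3, ← h1]
  rfl

theorem act_S1_basis (a : ι) :
    act S1 (A.basis a) = cw (D a) (act S0 1) + A.basis a * act S1 1 := by
  have h1 := first_basis h a A.one
  rw [dm_one, zero_mul, smul_zero, add_zero, AlgStr.basis_one, one_mul, mul_one] at h1
  exact h1.symm

/-- the main identity -/
theorem key (a d : ι) : A.basis d * cw (D a) (act S0 1) + A.basis a * cw (D d) (act S0 1) +
    ∑ c, (act S0 1 : A.Carrier) c • dm A (D a) d c +
      algebraMap ℂ R κ • (dm A L a d * act S0 1) = ∑ l, A.m a d l • cw (D l) (act S0 1) := by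
  have h1 := first_basis h a d
  have h2 : act S1 (A.basis a * A.basis d) =
      ∑ l, A.m a d l • cw (D l) (act S0 1) + (A.basis a * A.basis d) * act S1 1 := by
    conv_lhs => rw [basis_mul_basis, act_sum]
    conv_rhs => rw [basis_mul_basis, Finset.sum_mul, ← Finset.sum_add_distrib]
    refine Finset.sum_congr rfl fun l _ => ?_
    rw [act_smul, act_S1_basis h, smul_add, smul_mul_assoc]
  rw [h2, cw_mul, cw_basis, zero_mul, zero_add, err_basis, act_S1_basis h] at h1
  linear_combination h1

theorem dm_sym (a c d : ι) : dm A (D a) d c = dm A (D c) a d := by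
  funext k
  rw [dm_apply, dm_apply, A.comm d c, h.pot]

end

/-- the derivation before normalisation -/
def xi0 (D : ι → Derivation ℂ R R) (L : Derivation ℂ R R) (κ : ℂ) (s x : A.Carrier) : A.Carrier :=
  -(algebraMap ℂ R κ • (s * cw L x)) - ∑ a, s a • cw (D a) x + ∑ c, x c • cw (D c) s

theorem xi0_add (s x y : A.Carrier) :
    xi0 D L κ s (x + y) = xi0 D L κ s x + xi0 D L κ s y := by
  simp only [xi0, cw_add, mul_add, smul_add, Finset.sum_add_distrib, AlgStr.add_apply, add_smul]
  abel

theorem xi0_smul {f : R} (hf : ∀ a, D a f = 0) (s x : A.Carrier) :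
    xi0 D L κ s (f • x) =
      -(algebraMap ℂ R κ • (L f • (s * x))) + f • xi0 D L κ s x := by
  have h1 : ∀ a, cw (D a) (f • x) = f • cw (D a) x := by
    intro a
    rw [cw_smul, hf, zero_smul, zero_add]
  have h2 : ∑ a, s a • cw (D a) (f • x) = f • ∑ a, s a • cw (D a) x := by
    rw [Finset.smul_sum]
    refine Finset.sum_congr rfl fun a _ => ?_
    rw [h1, smul_comm]
  have h3 : ∑ c, (f • x) c • cw (D c) s = f • ∑ c, x c • cw (D c) s := by
    rw [Finset.smul_sum]
    refine Finset.sum_congr rfl fun a _ => ?_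
    rw [AlgStr.smul_apply, mul_smul]
  rw [xi0, xi0, h2, h3, cw_smul, mul_add, smul_add, mul_smul_comm, mul_smul_comm, smul_add,
    smul_sub, smul_neg, smul_comm f (algebraMap ℂ R κ)]
  abel

theorem xi0_mul (h : ShiftData A D L κ S0 S1) (x y : A.Carrier) :
    xi0 D L κ (act S0 1) (x * y) =
      xi0 D L κ (act S0 1) x * y + x * xi0 D L κ (act S0 1) y := by
  set s : A.Carrier := act S0 1 with hs
  -- the bilinear error term vanishes
  have hkey : -(algebraMap ℂ R κ • (s * err L x y)) - ∑ a, s a • err (D a) x y +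
      ∑ m, (x * y) m • cw (D m) s =
      (∑ c, x c • cw (D c) s) * y + x * ∑ d, y d • cw (D d) s := by
    have e1 : algebraMap ℂ R κ • (s * err L x y) =
        ∑ c, ∑ d, (x c * y d) • (algebraMap ℂ R κ • (dm A L c d * s)) := by
      rw [err, Finset.mul_sum, Finset.smul_sum]
      refine Finset.sum_congr rfl fun c _ => ?_
      rw [Finset.mul_sum, Finset.smul_sum]
      refine Finset.sum_congr rfl fun d _ => ?_
      rw [mul_smul_comm, smul_comm, mul_comm s]
    have e3 : ∑ a, s a • err (D a) x y =
        ∑ c, ∑ d, (x c * y d) • ∑ a, s a • dm A (D c) d a := by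
      simp only [err, Finset.smul_sum]
      rw [Finset.sum_comm]
      refine Finset.sum_congr rfl fun c _ => ?_
      rw [Finset.sum_comm]
      refine Finset.sum_congr rfl fun d _ => ?_
      refine Finset.sum_congr rfl fun a _ => ?_
      rw [smul_comm, dm_sym h c a d, dm_comm (D a) c d]
    have e4 : ∑ m, (x * y) m • cw (D m) s =
        ∑ c, ∑ d, (x c * y d) • ∑ l, A.m c d l • cw (D l) s := by
      have h1 : ∀ m, (x * y) m = ∑ c, ∑ d, x c * y d * A.m c d m := fun m =>
        AlgStr.mul_apply _ _ _ _
      simp only [h1, Finset.sum_smul, Finset.smul_sum]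
      rw [Finset.sum_comm]
      refine Finset.sum_congr rfl fun c _ => ?_
      rw [Finset.sum_comm]
      refine Finset.sum_congr rfl fun d _ => ?_
      refine Finset.sum_congr rfl fun l _ => ?_
      rw [mul_smul]
    have e5 : (∑ c, x c • cw (D c) s) * y =
        ∑ c, ∑ d, (x c * y d) • (A.basis d * cw (D c) s) := by
      conv_lhs => rw [eq_sum_basis y]
      rw [Finset.sum_mul]
      refine Finset.sum_congr rfl fun c _ => ?_
      rw [Finset.mul_sum]
      refine Finset.sum_congr rfl fun d _ => ?_
      rw [smul_mul_smul_comm, mul_comm (A.basis d)]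
    have e6 : x * (∑ d, y d • cw (D d) s) =
        ∑ c, ∑ d, (x c * y d) • (A.basis c * cw (D d) s) := by
      conv_lhs => rw [eq_sum_basis x]
      rw [Finset.sum_mul]
      refine Finset.sum_congr rfl fun c _ => ?_
      rw [Finset.mul_sum]
      refine Finset.sum_congr rfl fun d _ => ?_
      rw [smul_mul_smul_comm]
    rw [e1, e3, e4, e5, e6]
    simp only [← Finset.sum_add_distrib, ← Finset.sum_sub_distrib, ← Finset.sum_neg_distrib]
    refine Finset.sum_congr rfl fun c _ => Finset.sum_congr rfl fun d _ => ?_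
    rw [← smul_neg, ← smul_sub, ← smul_add, ← smul_add, ← key h]
    congr 1
    rw [← hs]
    ring
  have e7 : ∑ a, s a • cw (D a) (x * y) = (∑ a, s a • cw (D a) x) * y +
      x * (∑ a, s a • cw (D a) y) + ∑ a, s a • err (D a) x y := by
    rw [Finset.sum_mul, Finset.mul_sum, ← Finset.sum_add_distrib, ← Finset.sum_add_distrib]
    refine Finset.sum_congr rfl fun l _ => ?_
    rw [cw_mul, smul_add, smul_add, smul_mul_assoc, mul_smul_comm]
  rw [xi0, xi0, xi0, e7, cw_mul, mul_add, smul_add, mul_add, smul_add]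
  have e8 : algebraMap ℂ R κ • (s * (cw L x * y)) = (algebraMap ℂ R κ • (s * cw L x)) * y := by
    rw [smul_mul_assoc, mul_assoc]
  have e9 : algebraMap ℂ R κ • (s * (x * cw L y)) = x * (algebraMap ℂ R κ • (s * cw L y)) := by
    rw [mul_smul_comm]
    congr 1
    ring
  rw [e8, e9]
  linear_combination hkey

end Core

theorem ShiftData.exists_der {A : AlgStr R ι} {D : ι → Derivation ℂ R R} {L : Derivation ℂ R R}
    {κ : ℂ} {S0 S1 : Matrix ι ι R} (h : ShiftData A D L κ S0 S1) (hκ : κ ≠ 0) :
    ∃ Ξ : A.Carrier → A.Carrier, (∀ x y, Ξ (x + y) = Ξ x + Ξ y) ∧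
      (∀ x y, Ξ (x * y) = Ξ x * y + x * Ξ y) ∧
      ∀ f : R, (∀ a, D a f = 0) → ∀ x, Ξ (f • x) = L f • x + f • Ξ x := by
  set s : A.Carrier := Core.act S0 1 with hs
  let y : A.Carrier := Core.act S0⁻¹ 1
  have hy : y * s = 1 := by
    rw [hs, ← Core.act_S0 h, ← Core.act_mul, Matrix.mul_nonsing_inv _ h.unit, Core.act_one]
  have hk : algebraMap ℂ R (-κ⁻¹) * algebraMap ℂ R κ = -1 := by
    rw [← map_mul, neg_mul, inv_mul_cancel₀ hκ, map_neg, map_one]
  refine ⟨fun x => algebraMap ℂ R (-κ⁻¹) • (y * Core.xi0 D L κ s x), ?_, ?_, ?_⟩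
  · intro x x'
    beta_reduce
    rw [Core.xi0_add, mul_add, smul_add]
  · intro x x'
    beta_reduce
    rw [hs, Core.xi0_mul h, ← hs, mul_add, smul_add, smul_mul_assoc, mul_smul_comm]
    congr 2
    · ring
    · ring
  · intro f hf x
    beta_reduce
    rw [Core.xi0_smul hf, mul_add, smul_add, mul_neg, mul_smul_comm, mul_smul_comm, ← mul_assoc,
      hy, one_mul, smul_neg, smul_smul, hk, neg_smul, one_smul, neg_neg, mul_smul_comm, smul_comm]

end Pool.Agent.SHF
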