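import Pool.Agent.SHF.Defs
import Pool.Agent.Helper5.DubGen.GSplit

/-!
# Polynomials in `λ` as power series in `λ`

`emb` regards a power series in `t` with coefficients in `ℂ[λ]` as a power series in the variables
`Unit ⊕ ι`; the variable `Sum.inl ()` is `λ`. It is an injective ring homomorphism compatible with
the derivations, and killing `λ` is the evaluation of the coefficients at `0`.
-/

open scoped BigOperators
open Finset MvPowerSeries

namespace Pool.Agent.SHF

open Pool.Agent.Helper5.DubGen

variable {ι : Type}

/-- coefficientwise derivative with respect to `λ` -/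
noncomputable def mapDeriv (f : MvPowerSeries ι (Polynomial ℂ)) : MvPowerSeries ι (Polynomial ℂ) :=
  fun m => Polynomial.derivative (f m)

theorem coeff_mapDeriv (f : MvPowerSeries ι (Polynomial ℂ)) (m : ι →₀ ℕ) :
    coeff m (mapDeriv f) = Polynomial.derivative (coeff m f) := rfl

/-- underlying function of `emb` -/
noncomputable def embFun (f : MvPowerSeries ι (Polynomial ℂ)) : MvPowerSeries (Unit ⊕ ι) ℂ :=
  fun p => (coeff (p.comapDomain Sum.inr Sum.inr_injective.injOn) f).coeff (p (Sum.inl ()))

theorem coeff_embFun (f : MvPowerSeries ι (Polynomial ℂ)) (m : Unit →₀ ℕ) (n : ι →₀ ℕ) :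
    coeff (Finsupp.sumElim m n) (embFun f) = (coeff n f).coeff (m ()) := by
  have h : (Finsupp.sumElim m n).comapDomain Sum.inr Sum.inr_injective.injOn = n := by
    ext i
    simp
  show (coeff ((Finsupp.sumElim m n).comapDomain Sum.inr Sum.inr_injective.injOn) f).coeff
    (Finsupp.sumElim m n (Sum.inl ())) = _
  rw [h, Finsupp.sumElim_inl]

/-- polynomials in one variable as power series -/
private noncomputable def embPhi : Polynomial ℂ →+* MvPowerSeries Unit ℂ :=
  (Polynomial.coeToPowerSeries.ringHom : Polynomial ℂ →+* PowerSeries ℂ)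

private theorem embPhi_coeff (p : Polynomial ℂ) (m : Unit →₀ ℕ) :
    coeff m (embPhi p) = p.coeff (m ()) := by
  have h : m = Finsupp.single () (m ()) := by
    ext
    simp
  rw [h]
  have h2 : coeff (Finsupp.single () (m ())) (embPhi p) =
      PowerSeries.coeff (m ()) (p : PowerSeries ℂ) := rfl
  rw [h2, Polynomial.coeff_coe, Finsupp.single_eq_same]

private theorem split_embFun (f : MvPowerSeries ι (Polynomial ℂ)) :
    G.split (embFun f) = MvPowerSeries.map embPhi f := by
  refine MvPowerSeries.ext fun n => MvPowerSeries.ext fun m => ?_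
  rw [G.coeff_split, coeff_embFun, coeff_map, embPhi_coeff]

/-- a power series in `t` with coefficients in `ℂ[λ]` as a power series in `(λ, t)` -/
noncomputable def emb : MvPowerSeries ι (Polynomial ℂ) →+* MvPowerSeries (Unit ⊕ ι) ℂ where
  toFun := embFun
  map_one' := by
    apply G.split_injective
    rw [split_embFun, map_one, map_one]
  map_zero' := by
    apply G.split_injective
    rw [split_embFun, map_zero, map_zero]
  map_add' f g := by
    apply G.split_injective
    rw [map_add, split_embFun, split_embFun, split_embFun, map_add]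
  map_mul' f g := by
    apply G.split_injective
    rw [map_mul, split_embFun, split_embFun, split_embFun, map_mul]

theorem coeff_emb (f : MvPowerSeries ι (Polynomial ℂ)) (m : Unit →₀ ℕ) (n : ι →₀ ℕ) :
    coeff (Finsupp.sumElim m n) (emb f) = (coeff n f).coeff (m ()) :=
  coeff_embFun f m n

theorem emb_injective : Function.Injective (emb (ι := ι)) := by
  intro f g h
  ext n k
  have h1 := coeff_emb f (Finsupp.single () k) n
  have h2 := coeff_emb g (Finsupp.single () k) n
  rw [Finsupp.single_eq_same] at h1 h2
  rw [← h1, ← h2, h]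

theorem emb_pderiv (a : ι) (f : MvPowerSeries ι (Polynomial ℂ)) :
    pderiv ℂ (Sum.inr a) (emb f) = emb (pderiv (Polynomial ℂ) a f) := by
  classical
  ext p
  obtain ⟨m, n, rfl⟩ := G.exists_sumElim p
  have h1 : Finsupp.sumElim m n + Finsupp.single (Sum.inr a) 1 =
      Finsupp.sumElim m (n + Finsupp.single a 1) := by
    ext i
    rcases i with i | i
    · simp
    · by_cases h : i = a
      · subst h; simp
      · simp [Ne.symm h]
  have h2 : ((n a : Polynomial ℂ) + 1) = Polynomial.C ((n a : ℂ) + 1) := by simp
  rw [coeff_pderiv, coeff_emb, coeff_pderiv, h1, coeff_emb, h2, Polynomial.coeff_mul_C,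
    Finsupp.sumElim_inr]

theorem emb_deriv (f : MvPowerSeries ι (Polynomial ℂ)) :
    pderiv ℂ (Sum.inl ()) (emb f) = emb (mapDeriv f) := by
  classical
  ext p
  obtain ⟨m, n, rfl⟩ := G.exists_sumElim p
  have h1 : Finsupp.sumElim m n + Finsupp.single (Sum.inl ()) 1 =
      Finsupp.sumElim (m + Finsupp.single () 1) n := by
    ext i
    rcases i with i | i
    · simp
    · simp
  rw [coeff_pderiv, coeff_emb, coeff_mapDeriv, h1, coeff_emb, Polynomial.coeff_derivative,
    Finsupp.sumElim_inl, Finsupp.add_apply, Finsupp.single_eq_same]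

theorem killCompl_emb (f : MvPowerSeries ι (Polynomial ℂ)) :
    killCompl (R := ℂ) (Function.Embedding.inr : ι ↪ Unit ⊕ ι) (emb f) =
      MvPowerSeries.map (Polynomial.evalRingHom (0 : ℂ)) f := by
  classical
  ext n
  have h1 : Finsupp.embDomain (Function.Embedding.inr : ι ↪ Unit ⊕ ι) n =
      Finsupp.sumElim 0 n := by
    ext i
    rcases i with i | i
    · rw [Finsupp.sumElim_inl, Finsupp.embDomain_of_notMem_range]
      · rfl
      · rintro ⟨x, hx⟩
        cases hx
    · rw [Finsupp.sumElim_inr]
      exact Finsupp.embDomain_apply_self _ _ _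
  rw [coeff_killCompl, h1, coeff_emb, coeff_map, Polynomial.coe_evalRingHom, Finsupp.zero_apply,
    Polynomial.coeff_zero_eq_eval_zero]

end Pool.Agent.SHF
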