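import Pool.Agent.SHF.QHTa
import Pool.Agent.Helper18.Dub.Bridge
import Pool.Agent.Helper1.DubProd.Main

/-!
# The equivariant big quantum cohomology algebra

The equivariant copy (coefficients `Polynomial ℂ` instead of `ℂ`) of the big quantum cohomology
algebra of `Helper18/Dub`: associativity, unit, non-equivariant limit, potentiality, and the
descriptions of the trace rank and of generic semisimplicity.
-/

open scoped BigOperators
open Finset MvPowerSeries

namespace Pool.Agent.SHF

open Pool.Agent.Helper18.Dub Pool.Agent.Helper1.DubProd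

namespace EquivGW

variable {ι : Type} [Fintype ι] [DecidableEq ι] {X : FanoGW ι} (T : EquivGW X)

private theorem qht_comm (a b k : ι) : T.scT a b k = T.scT b a k := by
  simp only [EquivData.scT]
  refine Finset.sum_congr rfl fun l _ => ?_
  rw [FanoGW.mset_swap a b l]

private theorem qht_one_mul (b k : ι) : T.scT X.one b k = if b = k then 1 else 0 := by
  simp only [EquivData.scT, serT_unit, ← map_mul, ← map_sum]
  have h := congrFun (congrFun (Matrix.nonsing_inv_mul _ T.pair_nondeg) k) b
  rw [Matrix.mul_apply, Matrix.one_apply] at h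
  have h2 : ∑ l, T.pairT⁻¹ k l * T.pairT b l = if b = k then 1 else 0 := by
    rw [Finset.sum_congr rfl fun l _ => by rw [T.pair_symm b l], h]
    by_cases hkb : k = b
    · rw [if_pos hkb, if_pos hkb.symm]
    · rw [if_neg hkb, if_neg (fun h' => hkb h'.symm)]
  rw [h2]
  split_ifs <;> simp

private theorem qht_assoc (a b c k : ι) :
    ∑ l, T.scT a b l * T.scT l c k = ∑ l, T.scT b c l * T.scT a l k := by
  have key : ∀ a b c k : ι, ∑ l, T.scT a b l * T.scT l c k =
      ∑ f, C (T.pairT⁻¹ k f) *
        ∑ e, ∑ l, C (T.pairT⁻¹ e l) * T.serT {a, b, e} * T.serT {l, c, f} := by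
    intro a b c k
    have h1 : ∀ l, T.scT a b l * T.scT l c k = ∑ f, ∑ e, C (T.pairT⁻¹ k f) *
        (C (T.pairT⁻¹ e l) * T.serT {a, b, e} * T.serT {l, c, f}) := by
      intro l
      rw [EquivData.scT, EquivData.scT, Finset.sum_mul_sum, Finset.sum_comm]
      refine Finset.sum_congr rfl fun f _ => Finset.sum_congr rfl fun e _ => ?_
      rw [T.pairInv_symm l e]
      ring
    rw [Finset.sum_congr rfl fun l _ => h1 l, Finset.sum_comm]
    refine Finset.sum_congr rfl fun f _ => ?_
    rw [Finset.sum_comm, Finset.mul_sum]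
    refine Finset.sum_congr rfl fun e _ => ?_
    rw [Finset.mul_sum]
  have h2 : ∑ l, T.scT b c l * T.scT a l k = ∑ l, T.scT b c l * T.scT l a k :=
    Finset.sum_congr rfl fun l _ => by rw [qht_comm T a l k]
  rw [h2, key a b c k, key b c a k]
  refine Finset.sum_congr rfl fun f _ => ?_
  rw [T.wdvv a b c f]

private theorem qht_ext {R : Type} [CommRing R] {A B : AlgStr R ι} (hm : A.m = B.m)
    (h1 : A.one = B.one) : A = B := by
  cases A
  cases B
  cases hm
  cases h1
  rfl

/-- The equivariant big quantum cohomology algebra. -/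
noncomputable def QHT : AlgStr (MvPowerSeries ι (Polynomial ℂ)) ι where
  m := T.scT
  one := X.one
  comm := qht_comm T
  one_mul := qht_one_mul T
  assoc := qht_assoc T

theorem QHT_m (a b k : ι) : T.QHT.m a b k = T.scT a b k := rfl

theorem mulMatT_eq (a : ι) : T.mulMatT a = T.QHT.matOf a := rfl

/-- The non-equivariant limit. -/
theorem QHT_map_zero :
    T.QHT.map (MvPowerSeries.map (Polynomial.evalRingHom (0 : ℂ))) = X.QH := by
  refine qht_ext ?_ rfl
  funext a b k
  show MvPowerSeries.map (Polynomial.evalRingHom (0 : ℂ)) (T.scT a b k) = X.sc a b k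
  rw [EquivData.scT, FanoGW.sc, map_sum]
  refine Finset.sum_congr rfl fun l _ => ?_
  rw [map_mul, T.map_serT, MvPowerSeries.map_C]
  have h : Polynomial.evalRingHom (0 : ℂ) (T.pairT⁻¹ k l) = X.pair⁻¹ k l := T.map_pairInv k l
  rw [h]

/-- The structure constants come from a potential. -/
theorem pderiv_scT (a b c k : ι) : pderiv (Polynomial ℂ) a (T.scT b c k) =
    pderiv (Polynomial ℂ) b (T.scT a c k) := by
  simp only [EquivData.scT, map_sum]
  refine Finset.sum_congr rfl fun l _ => ?_
  rw [Derivation.leibniz, Derivation.leibniz, pderiv_C, pderiv_C, smul_zero, smul_zero, add_zero,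
    add_zero, pderiv_serT, pderiv_serT]
  have h : (a ::ₘ ({b, c, l} : Multiset ι)) = b ::ₘ ({a, c, l} : Multiset ι) :=
    Multiset.cons_swap _ _ _
  rw [h]

instance instCharZeroMvPowerSeriesPoly : CharZero (MvPowerSeries ι (Polynomial ℂ)) :=
  charZero_of_injective_ringHom (f := (C : Polynomial ℂ →+* MvPowerSeries ι (Polynomial ℂ)))
    MvPowerSeries.C_injective

theorem traceRankT_eq : T.traceRankT = srk T.QHT := by
  rw [EquivData.traceRankT, srk, grk]
  refine congrArg Matrix.rank (congrArg (fun M => Matrix.map M _) ?_)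
  ext1 a b
  rw [Matrix.of_apply, trm, Algebra.traceMatrix_apply, AlgStr.traceForm_basis, Matrix.trace]
  refine Finset.sum_congr rfl fun k _ => ?_
  rw [Matrix.diag_apply, Matrix.mul_apply]
  rfl

theorem isGenericallySemisimpleT_iff :
    T.IsGenericallySemisimpleT ↔ T.QHT.GenericallySemisimple := by
  rw [EquivData.IsGenericallySemisimpleT, AlgStr.GenericallySemisimple, AlgStr.isSemisimple_iff,
    matAlg]
  rfl

end EquivGW

end Pool.Agent.SHF
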