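import Pool.Agent.SHF.TopRel
import Pool.Agent.SHF.QHT

/-!
# Classical equivariant cohomology is the top degree part of small equivariant quantum cohomology

The rank of the trace form of the classical equivariant cohomology is at most the rank of the trace
form of equivariant big quantum cohomology.
-/

open scoped BigOperators
open Finset MvPowerSeries

namespace Pool.Agent.SHF

open Pool.Agent.Helper18.Dub Pool.Agent.Helper1.DubProd

namespace EquivGW

variable {ι : Type} [Fintype ι] [DecidableEq ι] {X : FanoGW ι} (T : EquivGW X)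

private theorem Top_hom {d : ℤ} {p : Polynomial ℂ} (h : ∀ n : ℕ, p.coeff n ≠ 0 → (n : ℤ) = d) :
    TopRel d p p := by
  constructor
  · intro n hn
    by_contra h0
    have := h n h0
    omega
  · intro n
    split_ifs with hd
    · rfl
    · by_contra h0
      exact hd (h n h0)

private theorem Top_coeff_E (p : Polynomial ℂ) (n : ℕ) :
    (Polynomial.X * Polynomial.derivative p).coeff n = n * p.coeff n := by
  cases n with
  | zero => simp
  | succ n =>
    rw [Polynomial.coeff_X_mul, Polynomial.coeff_derivative]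
    push_cast
    ring

private theorem Top_E_mul (M N : Matrix ι ι (Polynomial ℂ)) :
    (M * N).map (fun p => Polynomial.X * Polynomial.derivative p) =
      M.map (fun p => Polynomial.X * Polynomial.derivative p) * N +
        M * N.map (fun p => Polynomial.X * Polynomial.derivative p) := by
  ext1 i j
  rw [Matrix.map_apply, Matrix.add_apply, Matrix.mul_apply, Matrix.mul_apply, Matrix.mul_apply,
    Polynomial.derivative_sum, Finset.mul_sum, ← Finset.sum_add_distrib]
  refine Finset.sum_congr rfl fun k _ => ?_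
  rw [Polynomial.derivative_mul, Matrix.map_apply, Matrix.map_apply]
  ring

private theorem Top_E_one :
    (1 : Matrix ι ι (Polynomial ℂ)).map (fun p => Polynomial.X * Polynomial.derivative p) = 0 := by
  ext1 i j
  rw [Matrix.map_apply, Matrix.one_apply, Matrix.zero_apply]
  split_ifs <;> simp

private theorem Top_E_pair :
    T.pairT.map (fun p => Polynomial.X * Polynomial.derivative p) =
      Matrix.diagonal (fun i => ((X.deg i : ℕ) : Polynomial ℂ)) * T.pairT +
        T.pairT * Matrix.diagonal (fun i => ((X.deg i : ℕ) : Polynomial ℂ)) -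
        ((X.dim : ℕ) : Polynomial ℂ) • T.pairT := by
  ext1 i j
  rw [Matrix.map_apply, Matrix.sub_apply, Matrix.add_apply, Matrix.diagonal_mul,
    Matrix.mul_diagonal, Matrix.smul_apply, smul_eq_mul]
  ext n
  rw [Top_coeff_E, Polynomial.coeff_sub, Polynomial.coeff_add, Polynomial.coeff_natCast_mul,
    Polynomial.coeff_mul_natCast, Polynomial.coeff_natCast_mul]
  by_cases h0 : (T.pairT i j).coeff n = 0
  · rw [h0]
    ring
  · have h1 := T.pair_deg i j n h0
    have h2 : (X.deg i : ℂ) + (X.deg j : ℂ) = (X.dim : ℂ) + n := by exact_mod_cast h1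
    linear_combination (-(T.pairT i j).coeff n) * h2

theorem pairInv_top (k l : ι) : TopRel ((X.dim : ℤ) - X.deg k - X.deg l) (T.pairT⁻¹ k l)
    (T.pairT⁻¹ k l) := by
  have hI1 : T.pairT * T.pairT⁻¹ = 1 := Matrix.mul_nonsing_inv _ T.pair_nondeg
  have hI2 : T.pairT⁻¹ * T.pairT = 1 := Matrix.nonsing_inv_mul _ T.pair_nondeg
  obtain ⟨Δ, hΔ⟩ : ∃ Δ : Matrix ι ι (Polynomial ℂ),
      Δ = Matrix.diagonal (fun i => ((X.deg i : ℕ) : Polynomial ℂ)) := ⟨_, rfl⟩
  have h1 := Top_E_mul T.pairT T.pairT⁻¹
  rw [hI1, Top_E_one, Top_E_pair, ← hΔ] at h1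
  have h2 : T.pairT⁻¹.map (fun p => Polynomial.X * Polynomial.derivative p) =
      ((X.dim : ℕ) : Polynomial ℂ) • T.pairT⁻¹ - T.pairT⁻¹ * Δ - Δ * T.pairT⁻¹ := by
    have h3 := congrArg (fun M => T.pairT⁻¹ * M) h1
    simp only [Matrix.mul_zero, Matrix.mul_add] at h3
    rw [← Matrix.mul_assoc T.pairT⁻¹ T.pairT, hI2, Matrix.one_mul, Matrix.sub_mul,
      Matrix.add_mul, Matrix.mul_assoc Δ, hI1, Matrix.mul_one, Matrix.smul_mul, hI1,
      Matrix.mul_sub, Matrix.mul_add, Matrix.mul_assoc T.pairT Δ, ← Matrix.mul_assoc T.pairT⁻¹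
      T.pairT, hI2, Matrix.one_mul, Matrix.mul_smul, Matrix.mul_one] at h3
    rw [eq_comm, add_comm, add_eq_zero_iff_eq_neg] at h3
    rw [h3]
    abel
  apply Top_hom
  intro n hn
  have h3 := congrArg (fun M : Matrix ι ι (Polynomial ℂ) => (M k l).coeff n) h2
  simp only [Matrix.map_apply, Matrix.sub_apply, Matrix.smul_apply, smul_eq_mul] at h3
  rw [hΔ, Matrix.diagonal_mul, Matrix.mul_diagonal, Top_coeff_E, Polynomial.coeff_sub,
    Polynomial.coeff_sub, Polynomial.coeff_natCast_mul, Polynomial.coeff_natCast_mul,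
    Polynomial.coeff_mul_natCast] at h3
  have h4 : (T.pairT⁻¹ k l).coeff n * ((n : ℂ) - (X.dim - X.deg k - X.deg l)) = 0 := by
    linear_combination h3
  rcases mul_eq_zero.1 h4 with h5 | h5
  · exact absurd h5 hn
  · have h6 : (n : ℂ) + X.deg k + X.deg l = X.dim := by linear_combination h5
    have h7 : n + X.deg k + X.deg l = X.dim := by exact_mod_cast h6
    omega

theorem corrT_top (a b l : ι) : TopRel ((X.deg a : ℤ) + X.deg b + X.deg l - X.dim)
    (T.corrT {a, b, l}) (T.invT X.zero {a, b, l}) := by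
  classical
  obtain ⟨s, hs⟩ : ∃ s : Multiset ι, s = {a, b, l} := ⟨_, rfl⟩
  rw [← hs]
  have hfin := T.finite_support s
  obtain ⟨B, hB⟩ : ∃ B : Finset X.Curve, B = insert X.zero hfin.toFinset := ⟨_, rfl⟩
  have h1 : T.corrT s = ∑ β ∈ B, T.invT β s := by
    refine finsum_eq_sum_of_support_subset _ ?_
    intro β hβ
    rw [hB, Finset.coe_insert, Set.Finite.coe_toFinset]
    exact Set.mem_insert_of_mem _ hβ
  have h2 : T.invT X.zero s = ∑ β ∈ B, if β = X.zero then T.invT β s else 0 := by
    rw [Finset.sum_ite_eq' B X.zero, if_pos (by rw [hB]; exact Finset.mem_insert_self _ _)]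
  rw [h1, h2]
  refine TopRel.sum B fun β _ => ?_
  have h3 : ∀ n : ℕ, (T.invT β s).coeff n ≠ 0 →
      (n : ℤ) = (X.deg a : ℤ) + X.deg b + X.deg l - X.dim - X.c1 β := by
    intro n hn
    have h4 := T.dimension β s n hn
    have h5 : (s.map X.deg).sum = X.deg a + (X.deg b + X.deg l) := by
      rw [hs]
      simp [Multiset.insert_eq_cons]
    have h6 : Multiset.card s = 3 := by
      rw [hs]
      rfl
    rw [h5, h6] at h4
    omega
  by_cases hβ : β = X.zero
  · rw [if_pos hβ]
    apply Top_hom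
    intro n hn
    have h4 := h3 n hn
    rw [(X.c1_eq_zero β).2 hβ] at h4
    push_cast at h4
    omega
  · rw [if_neg hβ]
    have h4 : X.c1 β ≠ 0 := fun h0 => hβ ((X.c1_eq_zero β).1 h0)
    constructor
    · intro n hn
      by_contra h0
      have := h3 n h0
      omega
    · intro n
      rw [Polynomial.coeff_zero]
      split_ifs with hd
      · by_contra h0
        have := h3 n (Ne.symm h0)
        omega
      · rfl

/-- small equivariant quantum cohomology -/
noncomputable def smallQHT : AlgStr (Polynomial ℂ) ι :=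
  T.QHT.map (constantCoeff (σ := ι) (R := Polynomial ℂ))

private theorem Top_cc (s : Multiset ι) :
    constantCoeff (σ := ι) (R := Polynomial ℂ) (T.serT s) = T.corrT s := by
  have h2 : constantCoeff (σ := ι) (R := Polynomial ℂ) (T.serT s) =
      Polynomial.C (∏ i, (((0 : ι →₀ ℕ) i).factorial : ℂ))⁻¹ *
        T.corrT (s + Finsupp.toMultiset 0) := rfl
  rw [h2]
  simp

theorem smallQHT_m (a b k : ι) :
    T.smallQHT.m a b k = ∑ l, T.pairT⁻¹ k l * T.corrT {a, b, l} := by
  have h0 : T.smallQHT.m a b k =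
      constantCoeff (σ := ι) (R := Polynomial ℂ) (T.scT a b k) := rfl
  rw [h0, EquivData.scT, map_sum]
  refine Finset.sum_congr rfl fun l _ => ?_
  rw [map_mul, Top_cc, constantCoeff_C]

theorem m_top (a b k : ι) : TopRel ((X.deg a : ℤ) + X.deg b - X.deg k) (T.smallQHT.m a b k)
    (T.cupMatT a k b) := by
  have h1 : T.cupMatT a k b = ∑ l, T.pairT⁻¹ k l * T.invT X.zero {a, b, l} := rfl
  rw [smallQHT_m, h1]
  refine TopRel.sum _ fun l _ => ?_
  have h2 := (T.pairInv_top k l).mul (T.corrT_top a b l)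
  have h3 : (X.dim : ℤ) - X.deg k - X.deg l + ((X.deg a : ℤ) + X.deg b + X.deg l - X.dim) =
      (X.deg a : ℤ) + X.deg b - X.deg k := by ring
  rw [h3] at h2
  exact h2

theorem trace_top (a b : ι) : TopRel ((X.deg a : ℤ) + X.deg b) (trm T.smallQHT a b)
    (T.cupMatT a * T.cupMatT b).trace := by
  rw [trm, Algebra.traceMatrix_apply, AlgStr.traceForm_basis, Matrix.trace]
  refine TopRel.sum _ fun k _ => ?_
  rw [Matrix.diag_apply, Matrix.mul_apply]
  refine TopRel.sum _ fun l _ => ?_
  have h2 := (T.m_top a l k).mul (T.m_top b k l)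
  have h3 : (X.deg a : ℤ) + X.deg l - X.deg k + ((X.deg b : ℤ) + X.deg k - X.deg l) =
      (X.deg a : ℤ) + X.deg b := by ring
  rw [h3] at h2
  exact h2

theorem fixedRank_le : T.fixedRank ≤ srk T.QHT := by
  have h0 : T.fixedRank = grk (Matrix.of fun a b => (T.cupMatT a * T.cupMatT b).trace) := rfl
  rw [h0]
  obtain ⟨r, c, h⟩ := exists_minor_grk (Matrix.of fun a b => (T.cupMatT a * T.cupMatT b).trace)
  have h1 : TopRel (∑ i, (X.deg (r i) : ℤ) + ∑ j, (X.deg (c j) : ℤ))
      ((trm T.smallQHT).submatrix r c).det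
      ((Matrix.of fun a b => (T.cupMatT a * T.cupMatT b).trace).submatrix r c).det :=
    TopRel.det fun i j => T.trace_top (r i) (c j)
  have h2 := h1.ne_zero h
  exact (le_grk h2).trans (srk_map_le T.QHT (constantCoeff (σ := ι) (R := Polynomial ℂ)))

end EquivGW

end Pool.Agent.SHF
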