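import Mathlib

/-!
# Top degree parts of polynomials and determinants

`TopRel d p q`: the polynomial `p` has degree at most `d` and `q` is the part of `p` of degree `d`
(for `d < 0` both vanish). The relation is closed under sums and products, hence under
determinants.
-/

open scoped BigOperators
open Finset

namespace Pool.Agent.SHF

/-- `p` has degree at most `d` and `q` is its part of degree `d`. -/
def TopRel (d : ℤ) (p q : Polynomial ℂ) : Prop :=
  (∀ n : ℕ, d < n → p.coeff n = 0) ∧ ∀ n : ℕ, q.coeff n = if (n : ℤ) = d then p.coeff n else 0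

namespace TopRel

theorem zero (d : ℤ) : TopRel d 0 0 := by
  refine ⟨fun n _ => Polynomial.coeff_zero n, fun n => ?_⟩
  simp

theorem one : TopRel 0 1 1 := by
  refine ⟨fun n hn => ?_, fun n => ?_⟩
  · rw [Polynomial.coeff_one, if_neg (by omega)]
  · rw [Polynomial.coeff_one]
    by_cases h : n = 0
    · simp [h]
    · rw [if_neg h, ite_self]

theorem add {d : ℤ} {p q p' q' : Polynomial ℂ} (h : TopRel d p q) (h' : TopRel d p' q') :
    TopRel d (p + p') (q + q') := by
  refine ⟨fun n hn => ?_, fun n => ?_⟩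
  · rw [Polynomial.coeff_add, h.1 n hn, h'.1 n hn, add_zero]
  · rw [Polynomial.coeff_add, Polynomial.coeff_add, h.2 n, h'.2 n]
    split_ifs <;> simp

theorem neg {d : ℤ} {p q : Polynomial ℂ} (h : TopRel d p q) : TopRel d (-p) (-q) := by
  refine ⟨fun n hn => ?_, fun n => ?_⟩
  · rw [Polynomial.coeff_neg, h.1 n hn, neg_zero]
  · rw [Polynomial.coeff_neg, Polynomial.coeff_neg, h.2 n]
    split_ifs <;> simp

theorem mul {d d' : ℤ} {p q p' q' : Polynomial ℂ} (h : TopRel d p q) (h' : TopRel d' p' q') :
    TopRel (d + d') (p * p') (q * q') := by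
  refine ⟨fun n hn => ?_, fun n => ?_⟩
  · rw [Polynomial.coeff_mul]
    refine Finset.sum_eq_zero fun x hx => ?_
    rw [Finset.HasAntidiagonal.mem_antidiagonal] at hx
    by_cases h1 : d < x.1
    · rw [h.1 _ h1, zero_mul]
    · rw [h'.1 _ (by omega), mul_zero]
  · rw [Polynomial.coeff_mul, Polynomial.coeff_mul]
    by_cases hn : (n : ℤ) = d + d'
    · rw [if_pos hn]
      refine Finset.sum_congr rfl fun x hx => ?_
      rw [Finset.HasAntidiagonal.mem_antidiagonal] at hx
      rw [h.2, h'.2]
      by_cases h1 : (x.1 : ℤ) = d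
      · rw [if_pos h1, if_pos (by omega)]
      · rw [if_neg h1, zero_mul]
        by_cases h2 : d < x.1
        · rw [h.1 _ h2, zero_mul]
        · rw [h'.1 _ (by omega), mul_zero]
    · rw [if_neg hn]
      refine Finset.sum_eq_zero fun x hx => ?_
      rw [Finset.HasAntidiagonal.mem_antidiagonal] at hx
      rw [h.2, h'.2]
      by_cases h1 : (x.1 : ℤ) = d
      · rw [if_neg (show ¬ (x.2 : ℤ) = d' by omega), mul_zero]
      · rw [if_neg h1, zero_mul]

theorem sum {α : Type*} (s : Finset α) {d : ℤ} {p q : α → Polynomial ℂ}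
    (h : ∀ a ∈ s, TopRel d (p a) (q a)) : TopRel d (∑ a ∈ s, p a) (∑ a ∈ s, q a) := by
  classical
  induction s using Finset.induction_on with
  | empty =>
    rw [Finset.sum_empty, Finset.sum_empty]
    exact zero d
  | insert a s ha ih =>
    rw [Finset.sum_insert ha, Finset.sum_insert ha]
    exact add (h a (Finset.mem_insert_self a s))
      (ih fun b hb => h b (Finset.mem_insert_of_mem hb))

theorem prod {α : Type*} (s : Finset α) {d : α → ℤ} {p q : α → Polynomial ℂ}
    (h : ∀ a ∈ s, TopRel (d a) (p a) (q a)) :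
    TopRel (∑ a ∈ s, d a) (∏ a ∈ s, p a) (∏ a ∈ s, q a) := by
  classical
  induction s using Finset.induction_on with
  | empty =>
    rw [Finset.sum_empty, Finset.prod_empty, Finset.prod_empty]
    exact one
  | insert a s ha ih =>
    rw [Finset.sum_insert ha, Finset.prod_insert ha, Finset.prod_insert ha]
    exact mul (h a (Finset.mem_insert_self a s))
      (ih fun b hb => h b (Finset.mem_insert_of_mem hb))

theorem det {n : ℕ} {u w : Fin n → ℤ} {M N : Matrix (Fin n) (Fin n) (Polynomial ℂ)}
    (h : ∀ i j, TopRel (u i + w j) (M i j) (N i j)) :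
    TopRel (∑ i, u i + ∑ j, w j) M.det N.det := by
  rw [Matrix.det_apply, Matrix.det_apply]
  refine sum _ fun σ _ => ?_
  have h1 : TopRel (∑ i, u i + ∑ j, w j) (∏ i, M (σ i) i) (∏ i, N (σ i) i) := by
    have h2 := prod (Finset.univ : Finset (Fin n)) (d := fun i => u (σ i) + w i)
      (p := fun i => M (σ i) i) (q := fun i => N (σ i) i) fun i _ => h (σ i) i
    rwa [Finset.sum_add_distrib, Equiv.sum_comp σ u] at h2
  rcases Int.units_eq_one_or (Equiv.Perm.sign σ) with hs | hs
  · rw [hs, one_smul, one_smul]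
    exact h1
  · rw [hs, Units.neg_smul, Units.neg_smul, one_smul, one_smul]
    exact neg h1

theorem ne_zero {d : ℤ} {p q : Polynomial ℂ} (h : TopRel d p q) (hq : q ≠ 0) : p ≠ 0 := by
  rintro rfl
  apply hq
  ext n
  rw [h.2 n]
  simp

end TopRel

end Pool.Agent.SHF
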