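import Pool.Agent.SHF.Main

/-!
# Fano manifolds with a torus action

`X` is a Fano manifold with an action of `T = ℂ^*`, `T : TorusGW X` its equivariant genus-zero
theory with the shift operator. Equivariant big quantum cohomology (at the generic point, or at any
value `c` of the equivariant parameter) and big quantum cohomology have the same number of canonical
coordinates. This number is at least the number of connected components of `X^T`; and if `X^T` is
finite, then big quantum cohomology is generically semisimple.
-/

namespace Pool.Agent.Results.MP_78bf89_ag.TorusActions

open Pool.Agent.Helper18.Dub Pool.Agent.Helper1.DubProd Pool.Agent.SHF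

theorem result {ι : Type} [Fintype ι] [DecidableEq ι] (X : FanoGW ι) (T : TorusGW X) :
    (T.traceRankT = traceRank X ∧
      (T.IsGenericallySemisimpleT ↔ X.IsGenericallySemisimple)) ∧
    (∀ c : ℂ, T.traceRankAt c = traceRank X ∧
      (T.IsGenericallySemisimpleAt c ↔ X.IsGenericallySemisimple)) ∧
    (T.fixedRank ≤ traceRank X ∧
      (T.fixedRank = Fintype.card ι → X.IsGenericallySemisimple)) ∧
    ∀ P : Finset (ι → Polynomial ℂ), (∀ r ∈ P, T.IsRestriction r) →
      P.card ≤ traceRank X ∧ (P.card = Fintype.card ι → X.IsGenericallySemisimple) :=
  T.main

end Pool.Agent.Results.MP_78bf89_ag.TorusActions
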